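import Pool.Agent.T2H81.RZ.Stm

/-!
# Package CASEX
-/

set_option autoImplicit false

open Module
open scoped BigOperators

namespace Pool.Agent.T2H81.RZ

open Pool.Agent.T2H81.RY

theorem T_CASEX : P_EXT → P_CASEX := by
  classical
  intro hext d n r p hp x S I C hC b hb c hc σ hσ
  -- the coefficients for the parts in I
  have hex : ∀ i : Fin r, ∃ ci : Fin n → ℝ, i ∈ I → ((∀ m, 0 ≤ ci m) ∧
      b - ∑ m ∈ C i, ci m • (p m - x) ∈ VV p x (S i)) := by
    intro i
    by_cases hi : i ∈ I
    · obtain ⟨μ, hμ, hrel⟩ := hC.rel i hi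
      have hdisj : Disjoint (C i) (S i) := by
        rw [Finset.disjoint_left]
        intro m hm hmS
        have h1 := hC.sub i hi hm
        unfold LL at h1
        rw [Finset.mem_sdiff] at h1
        exact h1.2 (Finset.mem_biUnion.mpr ⟨i, Finset.mem_univ i, hmS⟩)
      obtain ⟨ci, h1, h2⟩ := hext d n p hp x (S i) (C i) μ hdisj (hC.card i hi) hμ hrel b
      exact ⟨ci, fun _ => ⟨h1, h2⟩⟩
    · exact ⟨fun _ => 0, fun h => absurd h hi⟩
  choose ci hci using hex
  -- the part of an index in the union of the circuits
  have hpart : ∀ m : Fin n, ∃ i : Fin r, m ∈ I.biUnion C → (i ∈ I ∧ m ∈ C i) := by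
    intro m
    by_cases hm : m ∈ I.biUnion C
    · obtain ⟨i, hi, hmi⟩ := Finset.mem_biUnion.mp hm
      exact ⟨i, fun _ => ⟨hi, hmi⟩⟩
    · exact ⟨σ m, fun h => absurd h hm⟩
  choose τ hτ using hpart
  refine ⟨b, hb, fun m => if m ∈ I.biUnion C then ci (τ m) m else (if σ m ∈ I then 0 else c m),
    ?_, fun m => if m ∈ I.biUnion C then τ m else σ m, ?_⟩
  · intro m
    by_cases hm : m ∈ I.biUnion C
    · simp only [hm, if_true]
      exact (hci (τ m) (hτ m hm).1).1 m
    · by_cases hs : σ m ∈ I
      · simp only [hm, hs, if_true, if_false]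
        exact le_refl _
      · simp only [hm, hs, if_false]
        exact hc m
  · intro j
    by_cases hj : j ∈ I
    · have hsum : ∑ m ∈ (LL S).filter
          (fun m => (if m ∈ I.biUnion C then τ m else σ m) = j),
          (if m ∈ I.biUnion C then ci (τ m) m else (if σ m ∈ I then 0 else c m)) • (p m - x)
          = ∑ m ∈ C j, ci j m • (p m - x) := by
        symm
        apply Finset.sum_subset_zero_on_sdiff
        · intro m hm
          have hmU : m ∈ I.biUnion C := Finset.mem_biUnion.mpr ⟨j, hj, hm⟩
          rw [Finset.mem_filter]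
          refine ⟨hC.sub j hj hm, ?_⟩
          rw [if_pos hmU]
          by_contra hne
          have h1 := hC.disj (τ m) (hτ m hmU).1 j hj hne
          exact (Finset.disjoint_left.mp h1 (hτ m hmU).2) hm
        · intro m hm
          rw [Finset.mem_sdiff, Finset.mem_filter] at hm
          obtain ⟨⟨hmL, hmj⟩, hmC⟩ := hm
          by_cases hmU : m ∈ I.biUnion C
          · rw [if_pos hmU] at hmj
            exact absurd (hmj ▸ (hτ m hmU).2) hmC
          · rw [if_neg hmU] at hmj
            rw [if_neg hmU, if_pos (hmj.symm ▸ hj), zero_smul]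
        · intro m hm
          have hmU : m ∈ I.biUnion C := Finset.mem_biUnion.mpr ⟨j, hj, hm⟩
          have hτj : τ m = j := by
            by_contra hne
            have h1 := hC.disj (τ m) (hτ m hmU).1 j hj hne
            exact (Finset.disjoint_left.mp h1 (hτ m hmU).2) hm
          rw [if_pos hmU, hτj]
      rw [hsum]
      exact (hci j hj).2
    · have hsum : ∑ m ∈ (LL S).filter
          (fun m => (if m ∈ I.biUnion C then τ m else σ m) = j),
          (if m ∈ I.biUnion C then ci (τ m) m else (if σ m ∈ I then 0 else c m)) • (p m - x)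
          = ∑ m ∈ (LL S \ I.biUnion C).filter (fun m => σ m = j), c m • (p m - x) := by
        apply Finset.sum_congr
        · ext m
          rw [Finset.mem_filter, Finset.mem_filter, Finset.mem_sdiff]
          constructor
          · rintro ⟨hmL, hmj⟩
            by_cases hmU : m ∈ I.biUnion C
            · rw [if_pos hmU] at hmj
              exact absurd (hmj ▸ (hτ m hmU).1) hj
            · rw [if_neg hmU] at hmj
              exact ⟨⟨hmL, hmU⟩, hmj⟩
          · rintro ⟨⟨hmL, hmU⟩, hmj⟩
            refine ⟨hmL, ?_⟩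
            rw [if_neg hmU]
            exact hmj
        · intro m hm
          rw [Finset.mem_filter, Finset.mem_sdiff] at hm
          obtain ⟨⟨_, hmU⟩, hmj⟩ := hm
          have hn : σ m ∉ I := by rw [hmj]; exact hj
          rw [if_neg hmU, if_neg hn]
      rw [hsum]
      exact hσ j hj

end Pool.Agent.T2H81.RZ
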