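import Pool.Agent.T2H81.RZ.Stm

/-!
# Package DESC
-/

set_option autoImplicit false

open Module
open scoped BigOperators

namespace Pool.Agent.T2H81.RZ

open Pool.Agent.T2H81.RY

namespace PkgDESC

lemma exists_circs (hN : P_NEXT) (d n r : ℕ) (p : Fin n → E d) (hp : GP p) (hr : 1 ≤ r)
    (x : E d) (S : Fin r → Finset (Fin n)) (hS : State p x S) (hA : ¬ CaseA p x S)
    (I : Finset (Fin r)) :
    (∀ i ∈ I, (S i).card ≤ d) →
      sumE d S + I.card < (LL S).card + (d - finrank ℝ (WW p x S)) →
        ∃ C : Fin r → Finset (Fin n), Circs p x S I C := by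
  classical
  induction I using Finset.induction_on with
  | empty =>
    intro _ _
    refine ⟨fun _ => ∅, ?_, ?_, ?_, ?_⟩
    · intro i hi
      exact absurd hi (Finset.notMem_empty i)
    · intro i hi
      exact absurd hi (Finset.notMem_empty i)
    · intro i hi
      exact absurd hi (Finset.notMem_empty i)
    · intro i hi
      exact absurd hi (Finset.notMem_empty i)
  | insert i I hi ih =>
    intro hc hlt
    rw [Finset.card_insert_of_notMem hi] at hlt
    obtain ⟨C, hC⟩ := ih (fun j hj => hc j (Finset.mem_insert_of_mem hj)) (by omega)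
    obtain ⟨T, hT, hTc, μ, hμ, hμ2⟩ := hN d n r p hp hr x S hS hA I C hC (by omega) i hi
      (hc i (Finset.mem_insert_self i I))
    have hTL : T ⊆ LL S := hT.trans Finset.sdiff_subset
    have hTd : ∀ j ∈ I, Disjoint T (C j) := by
      intro j hj
      rw [Finset.disjoint_left]
      intro m hm hm'
      have := (Finset.mem_sdiff.1 (hT hm)).2
      exact this (Finset.mem_biUnion.2 ⟨j, hj, hm'⟩)
    have hne : ∀ j ∈ I, j ≠ i := fun j hj h => hi (h ▸ hj)
    refine ⟨Function.update C i T, ?_, ?_, ?_, ?_⟩
    · intro j hj
      rcases Finset.mem_insert.1 hj with rfl | hj'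
      · rw [Function.update_self]
        exact hTL
      · rw [Function.update_of_ne (hne j hj')]
        exact hC.sub j hj'
    · intro j hj
      rcases Finset.mem_insert.1 hj with rfl | hj'
      · rw [Function.update_self]
        exact hTc
      · rw [Function.update_of_ne (hne j hj')]
        exact hC.card j hj'
    · intro j hj
      rcases Finset.mem_insert.1 hj with rfl | hj'
      · rw [Function.update_self]
        exact ⟨μ, hμ, hμ2⟩
      · rw [Function.update_of_ne (hne j hj')]
        exact hC.rel j hj'
    · intro j hj k hk hjk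
      rcases Finset.mem_insert.1 hj with rfl | hj'
      · rcases Finset.mem_insert.1 hk with rfl | hk'
        · exact absurd rfl hjk
        · rw [Function.update_self, Function.update_of_ne (hne k hk')]
          exact hTd k hk'
      · rcases Finset.mem_insert.1 hk with rfl | hk'
        · rw [Function.update_self, Function.update_of_ne (hne j hj')]
          exact (hTd j hj').symm
        · rw [Function.update_of_ne (hne j hj'), Function.update_of_ne (hne k hk')]
          exact hC.disj j hj' k hk' hjk

end PkgDESC

theorem T_DESC : P_NEXT → P_KEY3 → P_DESC := by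
  intro hN hK d n r p hp hr x S hS hA I hI hlt
  obtain ⟨C, hC⟩ := PkgDESC.exists_circs hN d n r p hp hr x S hS hA I hI hlt
  exact hK d n r p hp hr x S hS hA I C hC hlt

end Pool.Agent.T2H81.RZ
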