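import Pool.Agent.T2H81.RZ.Stm

/-!
# Package DW
-/

set_option autoImplicit false

open Module
open scoped BigOperators

namespace Pool.Agent.T2H81.RZ

open Pool.Agent.T2H81.RY

theorem T_DW : P_CASEX → P_DW := by
  intro hcx d n r p hp hr x S hA I C hC
  apply le_antisymm
  · intro b hb
    by_contra hbW
    apply hA
    refine hcx d n r p hp x S I C hC b hbW (fun _ => 0) (fun _ => le_refl _)
      (fun _ => ⟨0, hr⟩) ?_
    intro j hj
    have h1 : ∑ m ∈ (LL S \ I.biUnion C).filter (fun _ => (⟨0, hr⟩ : Fin r) = j),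
        (fun _ : Fin n => (0 : ℝ)) m • (p m - x) = 0 := by
      apply Finset.sum_eq_zero
      intro m _
      simp
    rw [h1, sub_zero]
    exact (Submodule.mem_iInf _).mp hb ⟨j, hj⟩
  · refine le_iInf ?_
    intro j
    exact iInf_le _ j.1

end Pool.Agent.T2H81.RZ
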