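import Pool.Agent.T2H81.RZ.Stm

/-! Package EXT of project RZ (helper81), by helper94. -/

set_option autoImplicit false

open Module
open scoped BigOperators

namespace Pool.Agent.T2H81.RZ

open Pool.Agent.T2H81.RY

theorem T_EXT : P_SPAN → P_EXT := by
  classical
  intro hSPAN d n p hp x S T μ hdisj hcard hμ hrel b
  have htop : VV p x (S ∪ T) = ⊤ := by
    refine hSPAN d n p hp x (S ∪ T) ?_
    rw [Finset.card_union_of_disjoint hdisj.symm]
    omega
  have hb : b ∈ VV p x (S ∪ T) := by rw [htop]; exact Submodule.mem_top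
  have hunion : VV p x (S ∪ T) = VV p x S ⊔ VV p x T := by
    rw [VV, VV, VV, Finset.coe_union, Set.image_union, Submodule.span_union]
  rw [hunion] at hb
  obtain ⟨u, hu, v, hv, huv⟩ := Submodule.mem_sup.mp hb
  obtain ⟨a, ha⟩ : ∃ a : Fin n → ℝ, ∑ m ∈ T, a m • (p m - x) = v := by
    rw [VV] at hv
    obtain ⟨c, hc⟩ := (Submodule.mem_span_image_finset_iff_exists_fun ℝ).mp hv
    refine ⟨fun m => if h : m ∈ T then c ⟨m, h⟩ else 0, ?_⟩
    rw [← Finset.sum_coe_sort T, ← hc]
    refine Finset.sum_congr rfl fun i _ => ?_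
    have h : (fun m => if h : m ∈ T then c ⟨m, h⟩ else 0) (i : Fin n) = c i := dif_pos i.2
    rw [h]
  set N : ℝ := ∑ m ∈ T, |a m| / μ m with hN
  have hNn : ∀ m ∈ T, 0 ≤ |a m| / μ m := fun m hm => div_nonneg (abs_nonneg _) (hμ m hm).le
  have hNm : ∀ m ∈ T, |a m| ≤ N * μ m := by
    intro m hm
    have h1 : |a m| / μ m ≤ N := Finset.single_le_sum (f := fun m => |a m| / μ m) hNn hm
    rwa [div_le_iff₀ (hμ m hm)] at h1
  refine ⟨fun m => if m ∈ T then a m + N * μ m else 0, ?_, ?_⟩
  · intro m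
    by_cases hm : m ∈ T
    · simp only [if_pos hm]
      have := hNm m hm
      have := neg_abs_le (a m)
      linarith
    · simp only [if_neg hm]
      exact le_rfl
  · have h1 : ∑ m ∈ T, (if m ∈ T then a m + N * μ m else 0) • (p m - x) =
        v + N • ∑ m ∈ T, μ m • (p m - x) := by
      rw [← ha, Finset.smul_sum, ← Finset.sum_add_distrib]
      refine Finset.sum_congr rfl fun m hm => ?_
      rw [if_pos hm, add_smul, mul_smul]
    rw [h1, ← huv]
    have h2 : u + v - (v + N • ∑ m ∈ T, μ m • (p m - x)) =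
        u - N • ∑ m ∈ T, μ m • (p m - x) := by abel
    rw [h2]
    exact Submodule.sub_mem _ hu (Submodule.smul_mem _ _ hrel)

end Pool.Agent.T2H81.RZ
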