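import Pool.Agent.T2H81.RZ.Stm
import Pool.Agent.T2H81.RY.T_INDEP

/-!
# Package INT
-/

set_option autoImplicit false

open Module
open scoped BigOperators

namespace Pool.Agent.T2H81.RZ

open Pool.Agent.T2H81.RY

theorem INT_ext {n : ℕ} {M : Type*} [AddCommGroup M] [Module ℝ M] (C D : Finset (Fin n))
    (u : Fin n → ℝ) (q : Fin n → M) (hCD : C ⊆ D) :
    ∑ i ∈ D, (if i ∈ C then u i else 0) • q i = ∑ i ∈ C, u i • q i := by
  classical
  simp only [ite_smul, zero_smul]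
  rw [← Finset.sum_filter]
  refine Finset.sum_congr ?_ fun _ _ => rfl
  ext i
  simp only [Finset.mem_filter]
  exact ⟨fun h => h.2, fun h => ⟨hCD h, h⟩⟩

theorem INT_ext' {n : ℕ} (C D : Finset (Fin n)) (u : Fin n → ℝ) (hCD : C ⊆ D) :
    ∑ i ∈ D, (if i ∈ C then u i else 0) = ∑ i ∈ C, u i := by
  have h := INT_ext C D u (fun _ => (1 : ℝ)) hCD
  simpa using h

theorem T_INT : P_INT := by
  classical
  intro d n p hp x S T Z β hSc hβ hβ1 hβx hdis hcard hZS hP γ hγ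
  obtain ⟨hPc, ρ, hρ, hρ1, hρx⟩ := hP
  have hTne : T.Nonempty := by
    rw [← Finset.card_pos]
    omega
  obtain ⟨t, ht⟩ := hTne
  obtain ⟨P, hPdef⟩ : ∃ P : Finset (Fin n), P = (S \ Z) ∪ T := ⟨_, rfl⟩
  rw [← hPdef] at hPc hρ hρ1 hρx hγ
  have htP : t ∈ P := by rw [hPdef]; exact Finset.mem_union_right _ ht
  have htS : t ∉ S := Finset.disjoint_left.1 hdis ht
  have hρt : ρ t ≠ 0 := (hρ t htP).ne'
  have hρ0 : ∑ i ∈ P, ρ i • (p i - x) = 0 := by
    simp only [smul_sub]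
    rw [Finset.sum_sub_distrib, hρx, ← Finset.sum_smul, hρ1, one_smul, sub_self]
  obtain ⟨δ, hδ⟩ := INDEP_mem hγ
  obtain ⟨δ', hδ'⟩ : ∃ δ' : Fin n → ℝ, δ' = fun i => δ i - (δ t / ρ t) * ρ i := ⟨_, rfl⟩
  have hδ't : δ' t = 0 := by
    rw [hδ']
    field_simp
    ring
  have hδ's : ∑ i ∈ P, δ' i • (p i - x) = ∑ i ∈ S, γ i • (p i - x) := by
    rw [hδ', ← hδ]
    simp only [sub_smul, mul_smul]
    rw [Finset.sum_sub_distrib, ← Finset.smul_sum, hρ0, smul_zero, sub_zero]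
  obtain ⟨κ, hκ⟩ : ∃ κ : Fin n → ℝ, κ = fun i => (if i ∈ S then γ i else 0) -
      (if i ∈ P then δ' i else 0) := ⟨_, rfl⟩
  have hPST : P ⊆ S ∪ T := by
    rw [hPdef]
    exact Finset.union_subset_union Finset.sdiff_subset (Finset.Subset.refl _)
  have hκt : κ t = 0 := by
    rw [hκ]
    simp [htS, hδ't]
  obtain ⟨Y, hY⟩ : ∃ Y : Finset (Fin n), Y = (S ∪ T).erase t := ⟨_, rfl⟩
  have hYc : Y.card ≤ d + 1 := by
    rw [hY, Finset.card_erase_of_mem (Finset.mem_union_right _ ht),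
      Finset.card_union_of_disjoint hdis.symm]
    omega
  have hSY : S ⊆ Y := by
    intro i hi
    rw [hY]
    exact Finset.mem_erase.2 ⟨fun h => htS (h ▸ hi), Finset.mem_union_left _ hi⟩
  have hκY : ∑ i ∈ Y, κ i • (p i - x) = 0 := by
    rw [hY, Finset.sum_erase _ (by rw [hκt, zero_smul]), hκ]
    simp only [sub_smul]
    rw [Finset.sum_sub_distrib, INT_ext S _ γ _ Finset.subset_union_left,
      INT_ext P _ δ' _ hPST, hδ's, sub_self]
  obtain ⟨K, hK⟩ : ∃ K : ℝ, K = ∑ i ∈ Y, κ i := ⟨_, rfl⟩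
  have hκp : ∑ i ∈ Y, κ i • p i = K • x := by
    have h1 : ∑ i ∈ Y, κ i • (p i - x) = ∑ i ∈ Y, κ i • p i - K • x := by
      simp only [smul_sub]
      rw [Finset.sum_sub_distrib, hK, Finset.sum_smul]
    rw [hκY] at h1
    exact (sub_eq_zero.1 h1.symm)
  have hz := INDEP_aff hp hYc (fun i => κ i - K * (if i ∈ S then β i else 0))
    (by
      rw [Finset.sum_sub_distrib, ← Finset.mul_sum, INT_ext' S Y β hSY, hβ1, ← hK, mul_one,
        sub_self])
    (by
      simp only [sub_smul, mul_smul]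
      rw [Finset.sum_sub_distrib, ← Finset.smul_sum, INT_ext S Y β _ hSY, hβx, hκp, sub_self])
  refine ⟨K, fun z hz' => ?_⟩
  have hzS : z ∈ S := hZS hz'
  have hzP : z ∉ P := by
    rw [hPdef, Finset.mem_union, Finset.mem_sdiff]
    rintro (h | h)
    · exact h.2 hz'
    · exact Finset.disjoint_left.1 hdis h hzS
  have h1 := hz z (hSY hzS)
  rw [hκ] at h1
  simp only [hzS, hzP, if_true, if_false, sub_zero] at h1
  linarith

end Pool.Agent.T2H81.RZ
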