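import Pool.Agent.T2H81.RZ.Stm

set_option autoImplicit false

open Module
open scoped BigOperators

namespace Pool.Agent.T2H81.RZ

open Pool.Agent.T2H81.RY

theorem T_KEY3 (hKEY : P_KEY) (hCASEX : P_CASEX) (hDW : P_DW) (hDIM : P_DIM) (hIND : P_INDEP) :
    P_KEY3 := by
  intro d n r p hp hr x S hS hA I C hC hN
  by_contra hlt
  push Not at hlt
  have hDWx := hDW d n r p hp hr x S hA I C hC
  set u := d - finrank ℝ (WW p x S) with hu
  have hcod : ∀ j, d - finrank ℝ (VV p x (S j)) = d + 1 - (S j).card := by
    intro j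
    have := hDIM d n p hp x (S j) (hS.circ j)
    omega
  rcases isEmpty_or_nonempty {j : Fin r // j ∉ I} with hemp | hne
  · rw [iInf_of_empty] at hDWx
    have h1 : finrank ℝ (WW p x S) = d := by
      rw [← hDWx, finrank_top, finrank_euclideanSpace_fin]
    have h2 : u = 0 := by omega
    rw [h2] at hlt
    omega
  have hsum : ∑ j : {j : Fin r // j ∉ I}, (d - finrank ℝ (VV p x (S j.1))) =
      ∑ j ∈ Finset.univ \ I, (d + 1 - (S j).card) := by
    rw [Fintype.sum_congr (fun j : {j : Fin r // j ∉ I} => d - finrank ℝ (VV p x (S j.1)))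
      (fun j : {j : Fin r // j ∉ I} => d + 1 - (S j.1).card) fun j => hcod j.1]
    symm
    refine Finset.sum_subtype (Finset.univ \ I) ?_ (fun j => d + 1 - (S j).card)
    intro j
    simp
  have hbC : I.biUnion C ⊆ LL S := by
    intro m hm
    obtain ⟨i, hi, hm⟩ := Finset.mem_biUnion.1 hm
    exact hC.sub i hi hm
  have hcard : (I.biUnion C).card = ∑ i ∈ I, (d + 1 - (S i).card) + I.card := by
    rw [Finset.card_biUnion (fun i hi j hj hij => hC.disj i hi j hj hij)]
    rw [Finset.card_eq_sum_ones I, ← Finset.sum_add_distrib]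
    refine Finset.sum_congr rfl fun i hi => ?_
    have h1 := hC.card i hi
    have h2 := (hS.circ i).1
    omega
  have hsplit : sumE d S = ∑ j ∈ Finset.univ \ I, (d + 1 - (S j).card) +
      ∑ i ∈ I, (d + 1 - (S i).card) := by
    unfold sumE
    exact (Finset.sum_sdiff (Finset.subset_univ I)).symm
  have hN' : ∑ j ∈ Finset.univ \ I, (d + 1 - (S j).card) < (LL S \ I.biUnion C).card + u := by
    have h1 := Finset.card_sdiff_add_card_eq_card hbC
    omega
  obtain ⟨L', hL', hle, hlt'⟩ : ∃ L' : Finset (Fin n), L' ⊆ LL S \ I.biUnion C ∧ L'.card ≤ u ∧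
      ∑ j ∈ Finset.univ \ I, (d + 1 - (S j).card) < L'.card + u := by
    by_cases hle : (LL S \ I.biUnion C).card ≤ u
    · exact ⟨LL S \ I.biUnion C, Finset.Subset.refl _, hle, hN'⟩
    · push Not at hle
      obtain ⟨L', h1, h2⟩ := Finset.exists_subset_card_eq (le_of_lt hle)
      exact ⟨L', h1, by omega, by omega⟩
  obtain ⟨b, c, σ, hb, hc, hbc⟩ := hKEY d {j : Fin r // j ∉ I} L' (fun j => VV p x (S j.1))
    (fun m => p (m : Fin n) - x) (by
      intro j T hT
      have hT' : (T.map (Function.Embedding.subtype _)).card + (S j.1).card ≤ d + 1 := by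
        rw [Finset.card_map]
        have := hcod j.1
        have h2 := (hS.circ j.1).1
        omega
      have hdis : Disjoint (T.map (Function.Embedding.subtype _)) (S j.1) := by
        rw [Finset.disjoint_left]
        intro a ha hb
        rw [Finset.mem_map] at ha
        obtain ⟨m, _, rfl⟩ := ha
        have hm := (Finset.mem_sdiff.1 (hL' m.2)).1
        unfold LL at hm
        rw [Finset.mem_sdiff] at hm
        exact hm.2 (Finset.mem_biUnion.2 ⟨j.1, Finset.mem_univ _, hb⟩)
      have h1 := hIND d n p hp x (S j.1) (T.map (Function.Embedding.subtype _)) (hS.circ j.1)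
        hdis hT'
      let e : T → (T.map (Function.Embedding.subtype (fun m => m ∈ L'))) := fun i =>
        ⟨((i : {m // m ∈ L'}) : Fin n), Finset.mem_map.2 ⟨i, i.2, rfl⟩⟩
      have he : Function.Injective e := by
        intro a b hab
        apply Subtype.ext
        apply Subtype.ext
        have h3 := congrArg Subtype.val hab
        exact h3
      exact h1.comp e he)
    (by
      rw [hsum, hDWx, Fintype.card_coe]
      exact hlt')
    (by
      rw [hDWx, Fintype.card_coe]
      exact hle)
  classical
  apply hA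
  rw [hDWx] at hb
  have j0 : Fin r := ⟨0, by omega⟩
  refine hCASEX d n r p hp x S I C hC b hb (fun m => if h : m ∈ L' then c ⟨m, h⟩ else 0) ?_
    (fun m => if h : m ∈ L' then (σ ⟨m, h⟩ : {j : Fin r // j ∉ I}).1 else j0) ?_
  · intro m
    split_ifs with h
    · exact hc _
    · exact le_rfl
  · intro j hj
    have := hbc ⟨j, hj⟩
    have hh : ∑ m ∈ (LL S \ I.biUnion C).filter
          (fun m => (if h : m ∈ L' then (σ ⟨m, h⟩ : {j : Fin r // j ∉ I}).1 else j0) = j),
          (if h : m ∈ L' then c ⟨m, h⟩ else 0) • (p m - x) =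
        ∑ i ∈ Finset.univ.filter (fun i : L' => σ i = ⟨j, hj⟩), c i • (p (i : Fin n) - x) := by
      have h1 : ∑ m ∈ (LL S \ I.biUnion C).filter
          (fun m => (if h : m ∈ L' then (σ ⟨m, h⟩ : {j : Fin r // j ∉ I}).1 else j0) = j),
          (if h : m ∈ L' then c ⟨m, h⟩ else 0) • (p m - x) =
          ∑ m ∈ L'.filter
          (fun m => (if h : m ∈ L' then (σ ⟨m, h⟩ : {j : Fin r // j ∉ I}).1 else j0) = j),
          (if h : m ∈ L' then c ⟨m, h⟩ else 0) • (p m - x) := by
        symm
        refine Finset.sum_subset (Finset.filter_subset_filter _ hL') ?_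
        intro m hm hm'
        have : m ∉ L' := by
          intro h
          apply hm'
          rw [Finset.mem_filter] at hm ⊢
          exact ⟨h, hm.2⟩
        rw [dif_neg this, zero_smul]
      rw [h1]
      symm
      refine Finset.sum_bij (fun i _ => (i : Fin n)) ?_ ?_ ?_ ?_
      · intro a ha
        rw [Finset.mem_filter] at ha ⊢
        refine ⟨a.2, ?_⟩
        rw [dif_pos a.2]
        exact congrArg Subtype.val ha.2
      · intro a _ b _ hab
        exact Subtype.ext hab
      · intro m hm
        rw [Finset.mem_filter] at hm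
        refine ⟨⟨m, hm.1⟩, ?_, rfl⟩
        rw [Finset.mem_filter]
        refine ⟨Finset.mem_univ _, ?_⟩
        have h2 := hm.2
        rw [dif_pos hm.1] at h2
        exact Subtype.ext h2
      · intro a _
        rw [dif_pos a.2]
    rw [hh]
    exact this

end Pool.Agent.T2H81.RZ
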