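import Pool.Agent.T2H81.RZ.Stm
import Pool.Agent.T2H81.RY.LibGen

/-!
# Package KW
-/

set_option autoImplicit false

open Module
open scoped BigOperators

namespace Pool.Agent.T2H81.RZ

open Pool.Agent.T2H81.RY

theorem T_KW : P_KW := by
  classical
  intro d n p x S W hcirc hW
  obtain ⟨hc, w, hw, hw1, hwx⟩ := hcirc
  let L : (Fin n → ℝ) →ₗ[ℝ] E d :=
    { toFun := fun γ => ∑ i ∈ S, γ i • (p i - x)
      map_add' := fun γ δ => by
        rw [← Finset.sum_add_distrib]
        exact Finset.sum_congr rfl fun i _ => add_smul _ _ _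
      map_smul' := fun c γ => by
        rw [RingHom.id_apply, Finset.smul_sum]
        refine Finset.sum_congr rfl fun i _ => ?_
        rw [smul_smul]; rfl }
  let A : Submodule ℝ (Fin n → ℝ) :=
    { carrier := {γ | ∀ i ∉ S, γ i = 0}
      add_mem' := fun {γ δ} h1 h2 i hi => by
        show γ i + δ i = 0
        rw [h1 i hi, h2 i hi, add_zero]
      zero_mem' := fun i _ => rfl
      smul_mem' := fun c γ h i hi => by
        show c * γ i = 0
        rw [h i hi, mul_zero] }
  let K : Submodule ℝ (Fin n → ℝ) := A ⊓ W.comap L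
  refine ⟨K, fun γ hγ => hγ.1, fun γ hγ => hγ.2, ?_⟩
  let f : K →ₗ[ℝ] W := LinearMap.codRestrict W (L.comp K.subtype) (fun γ => γ.2.2)
  have hcut : ∀ a : Fin n → ℝ, ∑ i ∈ S, (if i ∈ S then a i else 0) • (p i - x) =
      ∑ i ∈ S, a i • (p i - x) := fun a =>
    Finset.sum_congr rfl fun i hi => by rw [if_pos hi]
  have hsurj : LinearMap.range f = ⊤ := by
    rw [LinearMap.range_eq_top]
    intro v
    obtain ⟨a, ha⟩ := LibGen.mem_vv_iff (hW v.2)
    have hL : L (fun i => if i ∈ S then a i else 0) = v.1 := by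
      show ∑ i ∈ S, (if i ∈ S then a i else 0) • (p i - x) = v.1
      rw [hcut, ha]
    refine ⟨⟨fun i => if i ∈ S then a i else 0, ⟨fun i hi => if_neg hi, ?_⟩⟩, ?_⟩
    · show L _ ∈ W
      rw [hL]; exact v.2
    · apply Subtype.ext
      exact hL
  have hker : 0 < finrank ℝ (LinearMap.ker f) := by
    apply Nat.pos_of_ne_zero
    intro h0
    rw [Submodule.finrank_eq_zero] at h0
    have hL : L (fun i => if i ∈ S then w i else 0) = 0 := by
      show ∑ i ∈ S, (if i ∈ S then w i else 0) • (p i - x) = 0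
      rw [hcut]
      simp only [smul_sub]
      rw [Finset.sum_sub_distrib, ← Finset.sum_smul, hwx, hw1, one_smul, sub_self]
    let g : K := ⟨fun i => if i ∈ S then w i else 0, ⟨fun i hi => if_neg hi, by
      show L _ ∈ W
      rw [hL]; exact W.zero_mem⟩⟩
    have hg : g ∈ LinearMap.ker f := by
      rw [LinearMap.mem_ker]
      apply Subtype.ext
      exact hL
    rw [h0, Submodule.mem_bot] at hg
    have h1 : ∀ i, g.1 i = 0 := fun i => by
      rw [hg]; rfl
    have h2 : ∑ i ∈ S, w i = 0 := Finset.sum_eq_zero fun i hi => by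
      have := h1 i
      simp only [g, if_pos hi] at this
      exact this
    rw [hw1] at h2
    exact one_ne_zero h2
  have h := LinearMap.finrank_range_add_finrank_ker f
  rw [hsurj, finrank_top] at h
  omega

end Pool.Agent.T2H81.RZ
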