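import Pool.Agent.T2H81.RZ.Stm

/-!
# Package RK
-/

set_option autoImplicit false

open Module
open scoped BigOperators

namespace Pool.Agent.T2H81.RZ

open Pool.Agent.T2H81.RY

namespace PkgRK

theorem main_ind {n : ℕ} {S : Finset (Fin n)} {β : Fin n → ℝ} (hβ : ∀ i ∈ S, 0 < β i)
    {m e : ℕ} {Z : ℕ → Finset (Fin n)} (hZS : ∀ a ≤ m, Z a ⊆ S) (hZc : ∀ a ≤ m, e + 1 ≤ (Z a).card)
    (h0 : ∀ a ≤ m, a ≠ 0 → (Z 0 ∩ Z a).card ≤ 1)
    (h2 : ∀ a ≤ m, ∀ b ≤ m, a ≠ b → (Z a ∩ Z b).card ≤ 2)
    (K : Submodule ℝ (Fin n → ℝ))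
    (hK : ∀ γ ∈ K, ∀ a ≤ m, ∃ c : ℝ, ∀ z ∈ Z a, γ z = c * β z) (k : ℕ) :
    k ≤ m → ∃ Q : Finset (Fin n), Q ⊆ (Finset.range (k + 1)).biUnion Z ∧
      (∀ γ ∈ K, (∀ i ∈ Q, γ i = 0) → ∀ i ∈ (Finset.range (k + 1)).biUnion Z, γ i = 0) ∧
      Q.card + e + k * (e + 2) ≤ ((Finset.range (k + 1)).biUnion Z).card + k * (k + 1) := by
  classical
  have hvan : ∀ γ ∈ K, ∀ a ≤ m, ∀ z ∈ Z a, γ z = 0 → ∀ w ∈ Z a, γ w = 0 := by
    intro γ hγ a ha z hz hγz w hw
    obtain ⟨c, hc⟩ := hK γ hγ a ha
    have h1 := hc z hz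
    rw [hγz] at h1
    have hb := hβ z (hZS a ha hz)
    have hc0 : c = 0 := by
      rcases mul_eq_zero.1 h1.symm with h | h
      · exact h
      · exact absurd h hb.ne'
    rw [hc w hw, hc0, zero_mul]
  induction k with
  | zero =>
    intro _
    have hU : (Finset.range (0 + 1)).biUnion Z = Z 0 := by simp
    rw [hU]
    have hc := hZc 0 (Nat.zero_le m)
    obtain ⟨z, hz⟩ : (Z 0).Nonempty := Finset.card_pos.1 (by omega)
    refine ⟨{z}, Finset.singleton_subset_iff.2 hz, ?_, ?_⟩
    · intro γ hγ h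
      exact hvan γ hγ 0 (Nat.zero_le m) z hz (h z (Finset.mem_singleton_self z))
    · rw [Finset.card_singleton]
      omega
  | succ k ih =>
    intro hk
    obtain ⟨Q, hQ1, hQ2, hQ3⟩ := ih (by omega)
    set U := (Finset.range (k + 1)).biUnion Z with hU
    have hU' : (Finset.range (k + 1 + 1)).biUnion Z = U ∪ Z (k + 1) := by
      rw [Finset.range_add_one, Finset.biUnion_insert, Finset.union_comm]
    rw [hU']
    have hI : (U ∩ Z (k + 1)).card ≤ 1 + 2 * k := by
      have h3 : U ∩ Z (k + 1) ⊆ (Z 0 ∩ Z (k + 1)) ∪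
          (Finset.range k).biUnion (fun a => Z (a + 1) ∩ Z (k + 1)) := by
        intro z hz
        rw [Finset.mem_inter, hU, Finset.mem_biUnion] at hz
        obtain ⟨⟨a, ha, hza⟩, hz2⟩ := hz
        rw [Finset.mem_union, Finset.mem_inter, Finset.mem_biUnion]
        rcases Nat.eq_zero_or_pos a with h | h
        · left; rw [h] at hza; exact ⟨hza, hz2⟩
        · right
          rw [Finset.mem_range] at ha
          refine ⟨a - 1, Finset.mem_range.2 (by omega), ?_⟩
          rw [Finset.mem_inter, Nat.sub_add_cancel h]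
          exact ⟨hza, hz2⟩
      have h4 : ((Finset.range k).biUnion (fun a => Z (a + 1) ∩ Z (k + 1))).card ≤ k * 2 := by
        have := Finset.card_biUnion_le_card_mul (Finset.range k)
          (fun a => Z (a + 1) ∩ Z (k + 1)) 2 (fun a ha => by
            rw [Finset.mem_range] at ha
            exact h2 (a + 1) (by omega) (k + 1) hk (by omega))
        rwa [Finset.card_range] at this
      have h5 := h0 (k + 1) hk (by omega)
      calc (U ∩ Z (k + 1)).card ≤ _ := Finset.card_le_card h3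
        _ ≤ (Z 0 ∩ Z (k + 1)).card +
            ((Finset.range k).biUnion (fun a => Z (a + 1) ∩ Z (k + 1))).card :=
            Finset.card_union_le _ _
        _ ≤ 1 + 2 * k := by omega
    have hcard := Finset.card_union_add_card_inter U (Z (k + 1))
    have hZk := hZc (k + 1) hk
    have e1 : (k + 1) * (e + 2) = k * (e + 2) + (e + 2) := by ring
    have e2 : (k + 1) * (k + 1 + 1) = k * (k + 1) + 2 * k + 2 := by ring
    by_cases hne : (U ∩ Z (k + 1)).Nonempty
    · obtain ⟨z, hz⟩ := hne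
      rw [Finset.mem_inter] at hz
      refine ⟨Q, hQ1.trans Finset.subset_union_left, ?_, ?_⟩
      · intro γ hγ h i hi
        have h6 := hQ2 γ hγ h
        rcases Finset.mem_union.1 hi with h' | h'
        · exact h6 i h'
        · exact hvan γ hγ (k + 1) hk z hz.2 (h6 z hz.1) i h'
      · rw [e1, e2]
        omega
    · rw [Finset.not_nonempty_iff_eq_empty] at hne
      rw [hne, Finset.card_empty] at hcard
      obtain ⟨z, hz⟩ : (Z (k + 1)).Nonempty := Finset.card_pos.1 (by omega)
      refine ⟨insert z Q, ?_, ?_, ?_⟩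
      · intro i hi
        rcases Finset.mem_insert.1 hi with h | h
        · rw [h]; exact Finset.mem_union_right _ hz
        · exact Finset.mem_union_left _ (hQ1 h)
      · intro γ hγ h i hi
        rcases Finset.mem_union.1 hi with h' | h'
        · exact hQ2 γ hγ (fun j hj => h j (Finset.mem_insert_of_mem hj)) i h'
        · exact hvan γ hγ (k + 1) hk z hz (h z (Finset.mem_insert_self z Q)) i h'
      · have := Finset.card_insert_le z Q
        rw [e1, e2]
        omega

end PkgRK

open PkgRK in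
theorem T_RK : P_RK := by
  classical
  intro n S β hβ m e Z hZS hZc h0 h2 K hKS hK
  obtain ⟨Q, hQ1, hQ2, hQ3⟩ := main_ind hβ hZS hZc h0 h2 K hK m le_rfl
  set U := (Finset.range (m + 1)).biUnion Z with hU
  have hUS : U ⊆ S := by
    intro i hi
    rw [hU, Finset.mem_biUnion] at hi
    obtain ⟨a, ha, hi⟩ := hi
    rw [Finset.mem_range] at ha
    exact hZS a (by omega) hi
  let R : Finset (Fin n) := Q ∪ (S \ U)
  let f : K →ₗ[ℝ] (R → ℝ) :=
    { toFun := fun γ i => γ.1 i.1
      map_add' := fun γ δ => rfl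
      map_smul' := fun c γ => rfl }
  have hf : Function.Injective f := by
    rw [injective_iff_map_eq_zero]
    intro γ hγ
    have hR : ∀ i ∈ R, γ.1 i = 0 := fun i hi => congrFun hγ ⟨i, hi⟩
    have hU0 := hQ2 γ.1 γ.2 fun i hi => hR i (Finset.mem_union_left _ hi)
    apply Subtype.ext
    funext i
    show γ.1 i = 0
    by_cases hi : i ∈ S
    · by_cases hiU : i ∈ U
      · exact hU0 i hiU
      · exact hR i (Finset.mem_union_right _ (Finset.mem_sdiff.2 ⟨hi, hiU⟩))
    · exact hKS γ.1 γ.2 i hi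
  have h1 := LinearMap.finrank_le_finrank_of_injective hf
  rw [Module.finrank_fintype_fun_eq_card, Fintype.card_coe] at h1
  have h3 : R.card ≤ Q.card + (S \ U).card := Finset.card_union_le _ _
  rw [Finset.card_sdiff_of_subset hUS] at h3
  have h4 := Finset.card_le_card hUS
  omega

end Pool.Agent.T2H81.RZ
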