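import Pool.Agent.T2H81.RZ.Stm

/-!
# Package TIEQ
-/

set_option autoImplicit false

open Module
open scoped BigOperators

namespace Pool.Agent.T2H81.RZ

open Pool.Agent.T2H81.RY

namespace PkgTIEQ

/-- intersection bound -/
theorem inter_le {d n : ℕ} {p : Fin n → E d} {x : E d} (hCIRCU : P_CIRCU) (hp : GP p)
    {A T Ta Tb Za Zb Y : Finset (Fin n)} (hT : T.card + A.card = d + 2)
    (hYA : Ta ∪ Tb ⊆ T ∪ Y) (hZa : Za ⊆ A)
    (ha : Circ p x ((A \ Za) ∪ Ta)) (hb : Circ p x ((A \ Zb) ∪ Tb))
    (hne : (A \ Za) ∪ Ta ≠ (A \ Zb) ∪ Tb) : (Za ∩ Zb).card ≤ Y.card := by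
  classical
  have h1 := hCIRCU d n p hp x _ _ ha hb hne
  have h2 : ((A \ Za) ∪ Ta) ∪ ((A \ Zb) ∪ Tb) ⊆ (A \ (Za ∩ Zb)) ∪ (T ∪ Y) := by
    intro i hi
    rw [Finset.mem_union, Finset.mem_union, Finset.mem_union] at hi
    rw [Finset.mem_union]
    rcases hi with (h | h) | (h | h)
    · left
      rw [Finset.mem_sdiff] at h ⊢
      exact ⟨h.1, fun h' => h.2 (Finset.mem_inter.1 h').1⟩
    · right; exact hYA (Finset.mem_union_left _ h)
    · left
      rw [Finset.mem_sdiff] at h ⊢
      exact ⟨h.1, fun h' => h.2 (Finset.mem_inter.1 h').2⟩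
    · right; exact hYA (Finset.mem_union_right _ h)
  have h3 := Finset.card_le_card h2
  have h4 := Finset.card_union_le (A \ (Za ∩ Zb)) (T ∪ Y)
  have h5 := Finset.card_union_le T Y
  have hZ : Za ∩ Zb ⊆ A := Finset.inter_subset_left.trans hZa
  rw [Finset.card_sdiff_of_subset hZ] at h4
  have h6 := Finset.card_le_card hZ
  omega

end PkgTIEQ

open PkgTIEQ in
theorem T_TIEQ : P_POS → P_ROT → P_EXCH → P_CIRCU → P_INT → P_RK → P_KW → P_TIEQ := by
  classical
  intro hPOS hROT hEXCH hCIRCU hINT hRK hKW d n r p hp hr x S hS hA hn i hi m hL hmax hW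
  obtain ⟨T, hTL, hTc, μ, hμ, hμV⟩ := hPOS d n r p hp hr x S hS hA hn i hi
  have hLS : ∀ m ∈ LL S, ∀ j, m ∉ S j := by
    intro m hm j hj
    simp only [LL, Finset.mem_sdiff, Finset.mem_univ, true_and, Finset.mem_biUnion,
      not_exists] at hm
    exact hm j hj
  have hTS : ∀ j, Disjoint T (S j) := fun j =>
    Finset.disjoint_left.2 fun m hm hj => hLS m (hTL hm) j hj
  obtain ⟨hSc, β, hβ, hβ1, hβx⟩ := hS.circ i
  -- the properties of the modified sets
  have key : ∀ T' : Finset (Fin n), T'.card = T.card → (∀ j, Disjoint T' (S j)) →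
      (∃ ν : Fin n → ℝ, (∀ m ∈ T', 0 < ν m) ∧ ∑ m ∈ T', ν m • (p m - x) ∈ VV p x (S i)) →
      ∃ Z : Finset (Fin n), Z ⊆ S i ∧ Circ p x ((S i \ Z) ∪ T') ∧ d + 1 - (S i).card + 1 ≤ Z.card ∧
        ∀ γ : Fin n → ℝ, ∑ k ∈ S i, γ k • (p k - x) ∈ WW p x S →
          ∃ c : ℝ, ∀ z ∈ Z, γ z = c * β z := by
    intro T' hT'c hT'S ⟨ν, hν, hνV⟩
    obtain ⟨Z, hZS, hZne, hP⟩ := hEXCH d n p x (S i) T' ν (hS.circ i) (hT'S i) (by omega) hν hνV
    refine ⟨Z, hZS, hP, ?_, ?_⟩
    · have h1 := hmax _ hP (by
        intro j hj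
        rw [Finset.disjoint_union_left]
        exact ⟨(hS.disj i j hj.symm).mono_left Finset.sdiff_subset, hT'S j⟩)
      rw [Finset.card_union_of_disjoint ((hT'S i).symm.mono_left Finset.sdiff_subset),
        Finset.card_sdiff_of_subset hZS] at h1
      have h4 := Finset.card_le_card hZS
      omega
    · intro γ hγ
      exact hINT d n p hp x (S i) T' Z β hSc hβ hβ1 hβx (hT'S i) (by omega) hZS hP γ (hW _ hP hγ)
  obtain ⟨Z0, hZ0S, hP0, hZ0c, hZ0g⟩ := key T rfl hTS ⟨μ, hμ, hμV⟩
  -- the rotations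
  have hrot : ∀ y : Fin n, y ∈ LL S \ T → ∃ (T' Z : Finset (Fin n)), y ∈ T' ∧ T' ⊆ insert y T ∧
      Z ⊆ S i ∧ Circ p x ((S i \ Z) ∪ T') ∧ d + 1 - (S i).card + 1 ≤ Z.card ∧
        ∀ γ : Fin n → ℝ, ∑ k ∈ S i, γ k • (p k - x) ∈ WW p x S →
          ∃ c : ℝ, ∀ z ∈ Z, γ z = c * β z := by
    intro y hy
    rw [Finset.mem_sdiff] at hy
    obtain ⟨hyL, hyT⟩ := hy
    have hyS : ∀ j, y ∉ S j := hLS y hyL
    obtain ⟨t, ht, ν, hν, hνV⟩ := hROT d n p hp x (S i) T μ y (hS.circ i) hi (hTS i) hTc hμ hμV
      (hyS i) hyT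
    have hT'c : (insert y (T.erase t)).card = T.card := by
      rw [Finset.card_insert_of_notMem (fun h => hyT (Finset.mem_of_mem_erase h)),
        Finset.card_erase_of_mem ht]
      have := Finset.card_pos.2 ⟨t, ht⟩
      omega
    have hT'S : ∀ j, Disjoint (insert y (T.erase t)) (S j) := by
      intro j
      rw [Finset.disjoint_left]
      intro m hm hj
      rcases Finset.mem_insert.1 hm with h | h
      · exact hyS j (h ▸ hj)
      · exact Finset.disjoint_left.1 (hTS j) (Finset.mem_of_mem_erase h) hj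
    obtain ⟨Z, h1, h2, h3, h4⟩ := key _ hT'c hT'S ⟨ν, hν, hνV⟩
    exact ⟨_, Z, Finset.mem_insert_self _ _, Finset.insert_subset_insert _ (Finset.erase_subset _ _),
      h1, h2, h3, h4⟩
  choose! Tf Zf hf1 hf2 hf3 hf4 hf5 hf6 using hrot
  -- m different new points
  have hYc : m ≤ (LL S \ T).card := by
    rw [Finset.card_sdiff_of_subset hTL]
    omega
  obtain ⟨Y, hYL, hYm⟩ := Finset.exists_subset_card_eq hYc
  let g : Fin m ≃ Y := (Finset.equivFinOfCardEq hYm).symm
  let yy : ℕ → Fin n := fun a => if h : a - 1 < m then (g ⟨a - 1, h⟩ : Fin n) else (⟨0, by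
    have := (S i).card_le_univ
    have h2 := Finset.card_le_univ T
    rw [Fintype.card_fin] at h2
    omega⟩ : Fin n)
  have hyy : ∀ a, 1 ≤ a → a ≤ m → yy a ∈ LL S \ T := by
    intro a h1 h2
    have h3 : a - 1 < m := by omega
    simp only [yy, dif_pos h3]
    exact hYL (g ⟨a - 1, h3⟩).2
  have hyinj : ∀ a b, 1 ≤ a → a ≤ m → 1 ≤ b → b ≤ m → yy a = yy b → a = b := by
    intro a b ha1 ha2 hb1 hb2 hab
    have h3 : a - 1 < m := by omega
    have h4 : b - 1 < m := by omega
    simp only [yy, dif_pos h3, dif_pos h4] at hab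
    have := g.injective (Subtype.ext hab)
    rw [Fin.mk.injEq] at this
    omega
  let Zs : ℕ → Finset (Fin n) := fun a => if a = 0 then Z0 else Zf (yy a)
  have hZs0 : Zs 0 = Z0 := rfl
  have hZs : ∀ a, a ≠ 0 → Zs a = Zf (yy a) := fun a ha => if_neg ha
  have hmemP : ∀ a, 1 ≤ a → a ≤ m → yy a ∈ (S i \ Zf (yy a)) ∪ Tf (yy a) := fun a h1 h2 =>
    Finset.mem_union_right _ (hf1 _ (hyy a h1 h2))
  -- K
  obtain ⟨K, hK1, hK2, hK3⟩ := hKW d n p x (S i) (WW p x S) (hS.circ i) (iInf_le _ i)
  have hfin := hRK n (S i) β hβ m (d + 1 - (S i).card) Zs ?_ ?_ ?_ ?_ K hK1 ?_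
  · have hSi : (S i).card = d + 1 - (d + 1 - (S i).card) := by omega
    set e := d + 1 - (S i).card with he
    rcases Nat.eq_zero_or_pos m with h0 | h0
    · rw [h0] at hfin ⊢
      simp only [zero_mul, zero_add, add_zero] at hfin ⊢
      omega
    · obtain ⟨q, hq⟩ : ∃ q, m = q + 1 := ⟨m - 1, by omega⟩
      rw [hq] at hfin ⊢
      have e1 : (q + 1) * (e + 2) = (q + 1) * e + 2 * q + 2 := by ring
      have e2 : (q + 1) * (q + 1 + 1) = (q + 1) * q + 2 * q + 2 := by ring
      have e3 : (q + 1 + 2) * e = (q + 1) * e + 2 * e := by ring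
      rw [e1, e2] at hfin
      rw [e3, Nat.add_sub_cancel]
      omega
  · intro a ha
    by_cases h : a = 0
    · rw [h, hZs0]; exact hZ0S
    · rw [hZs a h]; exact hf3 _ (hyy a (by omega) ha)
  · intro a ha
    by_cases h : a = 0
    · rw [h, hZs0]; exact hZ0c
    · rw [hZs a h]; exact hf5 _ (hyy a (by omega) ha)
  · intro a ha h
    rw [hZs0, hZs a h]
    have h1 := hyy a (by omega) ha
    have h2 := inter_le hCIRCU hp (T := T) (Y := {yy a}) hTc (by
      intro z hz
      rcases Finset.mem_union.1 hz with h | h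
      · exact Finset.mem_union_left _ h
      · have := hf2 _ h1 h
        rcases Finset.mem_insert.1 this with h' | h'
        · exact Finset.mem_union_right _ (Finset.mem_singleton.2 h')
        · exact Finset.mem_union_left _ h') hZ0S hP0 (hf4 _ h1) (by
      intro heq
      have h3 := hmemP a (by omega) ha
      rw [← heq, Finset.mem_union] at h3
      rw [Finset.mem_sdiff] at h1
      rcases h3 with h3 | h3
      · exact hLS _ h1.1 i (Finset.mem_sdiff.1 h3).1
      · exact h1.2 h3)
    rwa [Finset.card_singleton] at h2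
  · intro a ha b hb hab
    by_cases h0 : a = 0
    · have hb0 : b ≠ 0 := fun h => hab (h0.trans h.symm)
      have h1 := hyy b (by omega) hb
      rw [h0, hZs0, hZs b hb0]
      refine le_trans (inter_le hCIRCU hp (T := T) (Y := {yy b}) hTc (by
        intro z hz
        rcases Finset.mem_union.1 hz with h | h
        · exact Finset.mem_union_left _ h
        · have := hf2 _ h1 h
          rcases Finset.mem_insert.1 this with h' | h'
          · exact Finset.mem_union_right _ (Finset.mem_singleton.2 h')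
          · exact Finset.mem_union_left _ h') hZ0S hP0 (hf4 _ h1) (by
        intro heq
        have h3 := hmemP b (by omega) hb
        rw [← heq, Finset.mem_union] at h3
        rw [Finset.mem_sdiff] at h1
        rcases h3 with h3 | h3
        · exact hLS _ h1.1 i (Finset.mem_sdiff.1 h3).1
        · exact h1.2 h3)) (by rw [Finset.card_singleton]; norm_num)
    · by_cases hb0 : b = 0
      · have h1 := hyy a (by omega) ha
        rw [hb0, hZs0, hZs a h0, Finset.inter_comm]
        refine le_trans (inter_le hCIRCU hp (T := T) (Y := {yy a}) hTc (by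
          intro z hz
          rcases Finset.mem_union.1 hz with h | h
          · exact Finset.mem_union_left _ h
          · have := hf2 _ h1 h
            rcases Finset.mem_insert.1 this with h' | h'
            · exact Finset.mem_union_right _ (Finset.mem_singleton.2 h')
            · exact Finset.mem_union_left _ h') hZ0S hP0 (hf4 _ h1) (by
          intro heq
          have h3 := hmemP a (by omega) ha
          rw [← heq, Finset.mem_union] at h3
          rw [Finset.mem_sdiff] at h1
          rcases h3 with h3 | h3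
          · exact hLS _ h1.1 i (Finset.mem_sdiff.1 h3).1
          · exact h1.2 h3)) (by rw [Finset.card_singleton]; norm_num)
      · have h1 := hyy a (by omega) ha
        have h1' := hyy b (by omega) hb
        rw [hZs a h0, hZs b hb0]
        refine le_trans (inter_le hCIRCU hp (T := T) (Y := {yy a, yy b}) hTc (by
          intro z hz
          rcases Finset.mem_union.1 hz with h | h
          · have := hf2 _ h1 h
            rcases Finset.mem_insert.1 this with h' | h'
            · exact Finset.mem_union_right _ (by rw [h']; simp)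
            · exact Finset.mem_union_left _ h'
          · have := hf2 _ h1' h
            rcases Finset.mem_insert.1 this with h' | h'
            · exact Finset.mem_union_right _ (by rw [h']; simp)
            · exact Finset.mem_union_left _ h') (hf3 _ h1) (hf4 _ h1) (hf4 _ h1') (by
          intro heq
          have h3 := hmemP a (by omega) ha
          rw [heq, Finset.mem_union] at h3
          rw [Finset.mem_sdiff] at h1
          rcases h3 with h3 | h3
          · exact hLS _ h1.1 i (Finset.mem_sdiff.1 h3).1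
          · have h4 := hf2 _ h1' h3
            rcases Finset.mem_insert.1 h4 with h' | h'
            · exact hab (hyinj a b (by omega) ha (by omega) hb h')
            · exact h1.2 h')) Finset.card_le_two
  · intro γ hγ a ha
    by_cases h : a = 0
    · rw [h, hZs0]; exact hZ0g γ (hK2 γ hγ)
    · rw [hZs a h]; exact hf6 _ (hyy a (by omega) ha) γ (hK2 γ hγ)

end Pool.Agent.T2H81.RZ
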