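import Pool.Agent.T2H81.RZ.Stm2
import Pool.Agent.T2H81.RZ.T_TIEQ
import Pool.Agent.T2H81.RY.LibGen

/-!
# Package AQ
-/

set_option autoImplicit false

open Module
open scoped BigOperators

namespace Pool.Agent.T2H81.RZ

open Pool.Agent.T2H81.RY

namespace PkgAQ

/-- the linear algebra: functions proportional to `β` on the sets `Z a` -/
theorem lin {d n : ℕ} (p : Fin n → E d) (x : E d) (S : Finset (Fin n)) (β : Fin n → ℝ)
    (hβ : ∀ i ∈ S, 0 < β i) (hβ1 : ∑ i ∈ S, β i = 1) (hβx : ∑ i ∈ S, β i • p i = x)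
    (m : ℕ) (Z : ℕ → Finset (Fin n)) (hZ : ∀ a ≤ m, Z a ⊆ S) (hZne : ∀ a ≤ m, (Z a).Nonempty)
    (W : Submodule ℝ (E d)) (hW : W ≤ VV p x S)
    (hWγ : ∀ γ : Fin n → ℝ, ∑ k ∈ S, γ k • (p k - x) ∈ W →
      ∀ a ≤ m, ∃ c : ℝ, ∀ z ∈ Z a, γ z = c * β z) :
    ∃ (K : Submodule ℝ (Fin n → ℝ)) (A : Submodule ℝ (E d)) (R : Finset (Fin n)),
      (∀ γ ∈ K, ∀ i ∉ S, γ i = 0) ∧ (∀ γ ∈ K, ∀ a ≤ m, ∃ c : ℝ, ∀ z ∈ Z a, γ z = c * β z) ∧
      W ≤ A ∧ finrank ℝ A + 1 ≤ finrank ℝ K ∧ R ⊆ S ∧ (∀ z ∈ R, p z - x ∈ A) ∧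
      finrank ℝ K ≤ R.card + m + 1 := by
  classical
  let L : (Fin n → ℝ) →ₗ[ℝ] E d :=
    { toFun := fun γ => ∑ i ∈ S, γ i • (p i - x)
      map_add' := fun γ δ => by
        rw [← Finset.sum_add_distrib]
        exact Finset.sum_congr rfl fun i _ => add_smul _ _ _
      map_smul' := fun c γ => by
        rw [RingHom.id_apply, Finset.smul_sum]
        refine Finset.sum_congr rfl fun i _ => ?_
        rw [smul_smul]; rfl }
  let K : Submodule ℝ (Fin n → ℝ) :=
    { carrier := {γ | (∀ i ∉ S, γ i = 0) ∧ ∀ a ≤ m, ∃ c : ℝ, ∀ z ∈ Z a, γ z = c * β z}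
      add_mem' := fun {γ δ} h1 h2 => by
        refine ⟨fun i hi => ?_, fun a ha => ?_⟩
        · show γ i + δ i = 0
          rw [h1.1 i hi, h2.1 i hi, add_zero]
        · obtain ⟨c, hc⟩ := h1.2 a ha
          obtain ⟨c', hc'⟩ := h2.2 a ha
          refine ⟨c + c', fun z hz => ?_⟩
          show γ z + δ z = _
          rw [hc z hz, hc' z hz]
          ring
      zero_mem' := ⟨fun i _ => rfl, fun a _ => ⟨0, fun z _ => by
        show (0 : ℝ) = _
        ring⟩⟩
      smul_mem' := fun c γ h => by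
        refine ⟨fun i hi => ?_, fun a ha => ?_⟩
        · show c * γ i = 0
          rw [h.1 i hi, mul_zero]
        · obtain ⟨c', hc'⟩ := h.2 a ha
          refine ⟨c * c', fun z hz => ?_⟩
          show c * γ z = _
          rw [hc' z hz]
          ring }
  have hKmem : ∀ γ : Fin n → ℝ, γ ∈ K ↔
      ((∀ i ∉ S, γ i = 0) ∧ ∀ a ≤ m, ∃ c : ℝ, ∀ z ∈ Z a, γ z = c * β z) := fun γ => Iff.rfl
  have hL : ∀ γ : Fin n → ℝ, L γ = ∑ i ∈ S, γ i • (p i - x) := fun γ => rfl
  have hcut : ∀ a : Fin n → ℝ, ∑ i ∈ S, (if i ∈ S then a i else 0) • (p i - x) =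
      ∑ i ∈ S, a i • (p i - x) := fun a =>
    Finset.sum_congr rfl fun i hi => by rw [if_pos hi]
  let R : Finset (Fin n) := S \ (Finset.range (m + 1)).biUnion Z
  refine ⟨K, K.map L, R, fun γ hγ => ((hKmem γ).1 hγ).1, fun γ hγ => ((hKmem γ).1 hγ).2, ?_, ?_,
    Finset.sdiff_subset, ?_, ?_⟩
  · -- `W ≤ A`
    intro v hv
    obtain ⟨a, ha⟩ := LibGen.mem_vv_iff (hW hv)
    have h1 : L (fun i => if i ∈ S then a i else 0) = v := by rw [hL, hcut, ha]
    refine Submodule.mem_map.2 ⟨fun i => if i ∈ S then a i else 0, ?_, h1⟩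
    refine (hKmem _).2 ⟨fun i hi => if_neg hi, hWγ _ ?_⟩
    rw [← hL, h1]
    exact hv
  · -- the kernel contains `β`
    let f : K →ₗ[ℝ] E d := L.comp K.subtype
    have hrange : LinearMap.range f = K.map L := by
      rw [LinearMap.range_comp, Submodule.range_subtype]
    have hrk := LinearMap.finrank_range_add_finrank_ker f
    rw [hrange] at hrk
    have hker : 0 < finrank ℝ (LinearMap.ker f) := by
      apply Nat.pos_of_ne_zero
      intro h0
      rw [Submodule.finrank_eq_zero] at h0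
      have hL0 : L (fun i => if i ∈ S then β i else 0) = 0 := by
        rw [hL, hcut]
        simp only [smul_sub]
        rw [Finset.sum_sub_distrib, ← Finset.sum_smul, hβx, hβ1, one_smul, sub_self]
      let g : K := ⟨fun i => if i ∈ S then β i else 0, (hKmem _).2 ⟨fun i hi => if_neg hi,
        fun a ha => ⟨1, fun z hz => by rw [if_pos (hZ a ha hz), one_mul]⟩⟩⟩
      have hg : g ∈ LinearMap.ker f := by
        rw [LinearMap.mem_ker]
        exact hL0
      rw [h0, Submodule.mem_bot] at hg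
      have h1 : ∀ i, g.1 i = 0 := fun i => by
        rw [hg]; rfl
      have h2 : ∑ i ∈ S, β i = 0 := Finset.sum_eq_zero fun i hi => by
        have := h1 i
        simp only [g, if_pos hi] at this
        exact this
      rw [hβ1] at h2
      exact one_ne_zero h2
    omega
  · -- the points of `R`
    intro z hz
    have hzS : z ∈ S := (Finset.mem_sdiff.1 hz).1
    refine Submodule.mem_map.2 ⟨fun i => if i = z then 1 else 0, (hKmem _).2 ⟨fun i hi => ?_,
      fun a ha => ⟨0, fun y hy => ?_⟩⟩, ?_⟩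
    · rw [if_neg]
      rintro rfl
      exact hi hzS
    · rw [zero_mul, if_neg]
      rintro rfl
      exact (Finset.mem_sdiff.1 hz).2
        (Finset.mem_biUnion.2 ⟨a, Finset.mem_range.2 (by omega), hy⟩)
    · rw [hL, Finset.sum_eq_single z]
      · simp
      · intro b _ hb
        rw [if_neg hb, zero_smul]
      · intro h
        exact absurd hzS h
  · -- the dimension of `K`
    have : Nonempty (Fin n) := ⟨(hZne 0 (Nat.zero_le m)).choose⟩
    choose! zz hzz using hZne
    let F : K →ₗ[ℝ] (R → ℝ) × (Fin (m + 1) → ℝ) :=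
      { toFun := fun γ => (fun z => γ.1 z, fun a => γ.1 (zz a))
        map_add' := fun γ δ => rfl
        map_smul' := fun c γ => rfl }
    have hF : Function.Injective F := by
      rw [← LinearMap.ker_eq_bot, LinearMap.ker_eq_bot']
      intro γ hγ
      have h1 : ∀ z ∈ R, γ.1 z = 0 := fun z hz => congrFun (congrArg Prod.fst hγ) ⟨z, hz⟩
      have h2 : ∀ a : ℕ, a ≤ m → γ.1 (zz a) = 0 := fun a ha =>
        congrFun (congrArg Prod.snd hγ) ⟨a, by omega⟩
      have hγK := (hKmem γ.1).1 γ.2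
      have h3 : ∀ a ≤ m, ∀ z ∈ Z a, γ.1 z = 0 := by
        intro a ha z hz
        obtain ⟨c, hc⟩ := hγK.2 a ha
        have h4 := hc (zz a) (hzz a ha)
        rw [h2 a ha] at h4
        have h5 := hβ _ (hZ a ha (hzz a ha))
        have h6 : c = 0 := by
          rcases mul_eq_zero.1 h4.symm with h | h
          · exact h
          · exact absurd h h5.ne'
        rw [hc z hz, h6, zero_mul]
      apply Subtype.ext
      funext i
      show γ.1 i = 0
      by_cases hi : i ∈ S
      · by_cases hi2 : i ∈ (Finset.range (m + 1)).biUnion Z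
        · obtain ⟨a, ha, hia⟩ := Finset.mem_biUnion.1 hi2
          rw [Finset.mem_range] at ha
          exact h3 a (by omega) i hia
        · exact h1 i (Finset.mem_sdiff.2 ⟨hi, hi2⟩)
      · exact hγK.1 i hi
    have h := LinearMap.finrank_le_finrank_of_injective hF
    rw [Module.finrank_prod, Module.finrank_pi, Module.finrank_pi, Fintype.card_coe,
      Fintype.card_fin] at h
    omega

end PkgAQ

open PkgTIEQ PkgAQ in
theorem T_AQ : P_POS → P_ROT → P_EXCH → P_CIRCU → P_INT → P_RK → P_AQ := by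
  classical
  intro hPOS hROT hEXCH hCIRCU hINT hRK d n r p hp hr x S hS hA hn i hi m hL hmax hW
  obtain ⟨T, hTL, hTc, μ, hμ, hμV⟩ := hPOS d n r p hp hr x S hS hA hn i hi
  have hLS : ∀ m ∈ LL S, ∀ j, m ∉ S j := by
    intro m hm j hj
    simp only [LL, Finset.mem_sdiff, Finset.mem_univ, true_and, Finset.mem_biUnion,
      not_exists] at hm
    exact hm j hj
  have hTS : ∀ j, Disjoint T (S j) := fun j =>
    Finset.disjoint_left.2 fun m hm hj => hLS m (hTL hm) j hj
  obtain ⟨hSc, β, hβ, hβ1, hβx⟩ := hS.circ i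
  -- the properties of the modified sets
  have key : ∀ T' : Finset (Fin n), T'.card = T.card → (∀ j, Disjoint T' (S j)) →
      (∃ ν : Fin n → ℝ, (∀ m ∈ T', 0 < ν m) ∧ ∑ m ∈ T', ν m • (p m - x) ∈ VV p x (S i)) →
      ∃ Z : Finset (Fin n), Z ⊆ S i ∧ Circ p x ((S i \ Z) ∪ T') ∧ d + 1 - (S i).card + 1 ≤ Z.card ∧
        ∀ γ : Fin n → ℝ, ∑ k ∈ S i, γ k • (p k - x) ∈ WW p x S →
          ∃ c : ℝ, ∀ z ∈ Z, γ z = c * β z := by
    intro T' hT'c hT'S ⟨ν, hν, hνV⟩
    obtain ⟨Z, hZS, hZne, hP⟩ := hEXCH d n p x (S i) T' ν (hS.circ i) (hT'S i) (by omega) hν hνV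
    refine ⟨Z, hZS, hP, ?_, ?_⟩
    · have h1 := hmax _ hP (by
        intro j hj
        rw [Finset.disjoint_union_left]
        exact ⟨(hS.disj i j hj.symm).mono_left Finset.sdiff_subset, hT'S j⟩)
      rw [Finset.card_union_of_disjoint ((hT'S i).symm.mono_left Finset.sdiff_subset),
        Finset.card_sdiff_of_subset hZS] at h1
      have h4 := Finset.card_le_card hZS
      omega
    · intro γ hγ
      exact hINT d n p hp x (S i) T' Z β hSc hβ hβ1 hβx (hT'S i) (by omega) hZS hP γ (hW _ hP hγ)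
  obtain ⟨Z0, hZ0S, hP0, hZ0c, hZ0g⟩ := key T rfl hTS ⟨μ, hμ, hμV⟩
  -- the rotations
  have hrot : ∀ y : Fin n, y ∈ LL S \ T → ∃ (T' Z : Finset (Fin n)), y ∈ T' ∧ T' ⊆ insert y T ∧
      Z ⊆ S i ∧ Circ p x ((S i \ Z) ∪ T') ∧ d + 1 - (S i).card + 1 ≤ Z.card ∧
        ∀ γ : Fin n → ℝ, ∑ k ∈ S i, γ k • (p k - x) ∈ WW p x S →
          ∃ c : ℝ, ∀ z ∈ Z, γ z = c * β z := by
    intro y hy
    rw [Finset.mem_sdiff] at hy
    obtain ⟨hyL, hyT⟩ := hy
    have hyS : ∀ j, y ∉ S j := hLS y hyL
    obtain ⟨t, ht, ν, hν, hνV⟩ := hROT d n p hp x (S i) T μ y (hS.circ i) hi (hTS i) hTc hμ hμV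
      (hyS i) hyT
    have hT'c : (insert y (T.erase t)).card = T.card := by
      rw [Finset.card_insert_of_notMem (fun h => hyT (Finset.mem_of_mem_erase h)),
        Finset.card_erase_of_mem ht]
      have := Finset.card_pos.2 ⟨t, ht⟩
      omega
    have hT'S : ∀ j, Disjoint (insert y (T.erase t)) (S j) := by
      intro j
      rw [Finset.disjoint_left]
      intro m hm hj
      rcases Finset.mem_insert.1 hm with h | h
      · exact hyS j (h ▸ hj)
      · exact Finset.disjoint_left.1 (hTS j) (Finset.mem_of_mem_erase h) hj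
    obtain ⟨Z, h1, h2, h3, h4⟩ := key _ hT'c hT'S ⟨ν, hν, hνV⟩
    exact ⟨_, Z, Finset.mem_insert_self _ _, Finset.insert_subset_insert _ (Finset.erase_subset _ _),
      h1, h2, h3, h4⟩
  choose! Tf Zf hf1 hf2 hf3 hf4 hf5 hf6 using hrot
  -- m different new points
  have hYc : m ≤ (LL S \ T).card := by
    rw [Finset.card_sdiff_of_subset hTL]
    omega
  obtain ⟨Y, hYL, hYm⟩ := Finset.exists_subset_card_eq hYc
  let g : Fin m ≃ Y := (Finset.equivFinOfCardEq hYm).symm
  let yy : ℕ → Fin n := fun a => if h : a - 1 < m then (g ⟨a - 1, h⟩ : Fin n) else (⟨0, by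
    have := (S i).card_le_univ
    have h2 := Finset.card_le_univ T
    rw [Fintype.card_fin] at h2
    omega⟩ : Fin n)
  have hyy : ∀ a, 1 ≤ a → a ≤ m → yy a ∈ LL S \ T := by
    intro a h1 h2
    have h3 : a - 1 < m := by omega
    simp only [yy, dif_pos h3]
    exact hYL (g ⟨a - 1, h3⟩).2
  have hyinj : ∀ a b, 1 ≤ a → a ≤ m → 1 ≤ b → b ≤ m → yy a = yy b → a = b := by
    intro a b ha1 ha2 hb1 hb2 hab
    have h3 : a - 1 < m := by omega
    have h4 : b - 1 < m := by omega
    simp only [yy, dif_pos h3, dif_pos h4] at hab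
    have := g.injective (Subtype.ext hab)
    rw [Fin.mk.injEq] at this
    omega
  let Zs : ℕ → Finset (Fin n) := fun a => if a = 0 then Z0 else Zf (yy a)
  have hZs0 : Zs 0 = Z0 := rfl
  have hZs : ∀ a, a ≠ 0 → Zs a = Zf (yy a) := fun a ha => if_neg ha
  have hmemP : ∀ a, 1 ≤ a → a ≤ m → yy a ∈ (S i \ Zf (yy a)) ∪ Tf (yy a) := fun a h1 h2 =>
    Finset.mem_union_right _ (hf1 _ (hyy a h1 h2))
  have hZ1 : ∀ a ≤ m, Zs a ⊆ S i := by
    intro a ha
    by_cases h : a = 0
    · rw [h, hZs0]; exact hZ0S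
    · rw [hZs a h]; exact hf3 _ (hyy a (by omega) ha)
  have hZ2 : ∀ a ≤ m, d + 1 - (S i).card + 1 ≤ (Zs a).card := by
    intro a ha
    by_cases h : a = 0
    · rw [h, hZs0]; exact hZ0c
    · rw [hZs a h]; exact hf5 _ (hyy a (by omega) ha)
  have hZ3 : ∀ a ≤ m, a ≠ 0 → (Zs 0 ∩ Zs a).card ≤ 1 := by
    intro a ha h
    rw [hZs0, hZs a h]
    have h1 := hyy a (by omega) ha
    have h2 := inter_le hCIRCU hp (T := T) (Y := {yy a}) hTc (by
      intro z hz
      rcases Finset.mem_union.1 hz with h | h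
      · exact Finset.mem_union_left _ h
      · have := hf2 _ h1 h
        rcases Finset.mem_insert.1 this with h' | h'
        · exact Finset.mem_union_right _ (Finset.mem_singleton.2 h')
        · exact Finset.mem_union_left _ h') hZ0S hP0 (hf4 _ h1) (by
      intro heq
      have h3 := hmemP a (by omega) ha
      rw [← heq, Finset.mem_union] at h3
      rw [Finset.mem_sdiff] at h1
      rcases h3 with h3 | h3
      · exact hLS _ h1.1 i (Finset.mem_sdiff.1 h3).1
      · exact h1.2 h3)
    rwa [Finset.card_singleton] at h2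
  have hZ4 : ∀ a ≤ m, ∀ b ≤ m, a ≠ b → (Zs a ∩ Zs b).card ≤ 2 := by
    intro a ha b hb hab
    by_cases h0 : a = 0
    · have hb0 : b ≠ 0 := fun h => hab (h0.trans h.symm)
      have h1 := hyy b (by omega) hb
      rw [h0, hZs0, hZs b hb0]
      refine le_trans (inter_le hCIRCU hp (T := T) (Y := {yy b}) hTc (by
        intro z hz
        rcases Finset.mem_union.1 hz with h | h
        · exact Finset.mem_union_left _ h
        · have := hf2 _ h1 h
          rcases Finset.mem_insert.1 this with h' | h'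
          · exact Finset.mem_union_right _ (Finset.mem_singleton.2 h')
          · exact Finset.mem_union_left _ h') hZ0S hP0 (hf4 _ h1) (by
        intro heq
        have h3 := hmemP b (by omega) hb
        rw [← heq, Finset.mem_union] at h3
        rw [Finset.mem_sdiff] at h1
        rcases h3 with h3 | h3
        · exact hLS _ h1.1 i (Finset.mem_sdiff.1 h3).1
        · exact h1.2 h3)) (by rw [Finset.card_singleton]; norm_num)
    · by_cases hb0 : b = 0
      · have h1 := hyy a (by omega) ha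
        rw [hb0, hZs0, hZs a h0, Finset.inter_comm]
        refine le_trans (inter_le hCIRCU hp (T := T) (Y := {yy a}) hTc (by
          intro z hz
          rcases Finset.mem_union.1 hz with h | h
          · exact Finset.mem_union_left _ h
          · have := hf2 _ h1 h
            rcases Finset.mem_insert.1 this with h' | h'
            · exact Finset.mem_union_right _ (Finset.mem_singleton.2 h')
            · exact Finset.mem_union_left _ h') hZ0S hP0 (hf4 _ h1) (by
          intro heq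
          have h3 := hmemP a (by omega) ha
          rw [← heq, Finset.mem_union] at h3
          rw [Finset.mem_sdiff] at h1
          rcases h3 with h3 | h3
          · exact hLS _ h1.1 i (Finset.mem_sdiff.1 h3).1
          · exact h1.2 h3)) (by rw [Finset.card_singleton]; norm_num)
      · have h1 := hyy a (by omega) ha
        have h1' := hyy b (by omega) hb
        rw [hZs a h0, hZs b hb0]
        refine le_trans (inter_le hCIRCU hp (T := T) (Y := {yy a, yy b}) hTc (by
          intro z hz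
          rcases Finset.mem_union.1 hz with h | h
          · have := hf2 _ h1 h
            rcases Finset.mem_insert.1 this with h' | h'
            · exact Finset.mem_union_right _ (by rw [h']; simp)
            · exact Finset.mem_union_left _ h'
          · have := hf2 _ h1' h
            rcases Finset.mem_insert.1 this with h' | h'
            · exact Finset.mem_union_right _ (by rw [h']; simp)
            · exact Finset.mem_union_left _ h') (hf3 _ h1) (hf4 _ h1) (hf4 _ h1') (by
          intro heq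
          have h3 := hmemP a (by omega) ha
          rw [heq, Finset.mem_union] at h3
          rw [Finset.mem_sdiff] at h1
          rcases h3 with h3 | h3
          · exact hLS _ h1.1 i (Finset.mem_sdiff.1 h3).1
          · have h4 := hf2 _ h1' h3
            rcases Finset.mem_insert.1 h4 with h' | h'
            · exact hab (hyinj a b (by omega) ha (by omega) hb h')
            · exact h1.2 h')) Finset.card_le_two
  have hZ5 : ∀ γ : Fin n → ℝ, ∑ k ∈ S i, γ k • (p k - x) ∈ WW p x S →
      ∀ a ≤ m, ∃ c : ℝ, ∀ z ∈ Zs a, γ z = c * β z := by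
    intro γ hγ a ha
    by_cases h : a = 0
    · rw [h, hZs0]; exact hZ0g γ hγ
    · rw [hZs a h]; exact hf6 _ (hyy a (by omega) ha) γ hγ
  obtain ⟨K, A, R, hK1, hK2, hWA, hAK, hRS, hRA, hKR⟩ := lin p x (S i) β hβ hβ1 hβx m Zs hZ1
    (fun a ha => Finset.card_pos.1 (by have := hZ2 a ha; omega)) (WW p x S) (iInf_le _ i) hZ5
  have hfin := hRK n (S i) β hβ m (d + 1 - (S i).card) Zs hZ1 hZ2 hZ3 hZ4 K hK1 hK2
  have hWAf := Submodule.finrank_mono hWA
  refine ⟨A, R, hWA, ?_, hRS, hRA, by omega⟩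
  have hSi : (S i).card = d + 1 - (d + 1 - (S i).card) := by omega
  set e := d + 1 - (S i).card with he
  rcases Nat.eq_zero_or_pos m with h0 | h0
  · rw [h0] at hfin ⊢
    simp only [zero_mul, zero_add, add_zero] at hfin ⊢
    omega
  · obtain ⟨q, hq⟩ : ∃ q, m = q + 1 := ⟨m - 1, by omega⟩
    rw [hq] at hfin ⊢
    have e1 : (q + 1) * (e + 2) = (q + 1) * e + 2 * q + 2 := by ring
    have e2 : (q + 1) * (q + 1 + 1) = (q + 1) * q + 2 * q + 2 := by ring
    have e3 : (q + 1 + 2) * e = (q + 1) * e + 2 * e := by ring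
    rw [e1, e2] at hfin
    rw [e3, Nat.add_sub_cancel]
    omega

end Pool.Agent.T2H81.RZ
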