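import Pool.Agent.T2H81.RZ.Stm2

/-!
# Package PAIR
-/

set_option autoImplicit false

open Module
open scoped BigOperators

namespace Pool.Agent.T2H81.RZ

open Pool.Agent.T2H81.RY

theorem T_PAIR : P_SPAN → P_PAIR := by
  classical
  intro hSPAN d n p hp x A A' W R R' hWA hWA' hR hR' hdis hcard
  have h1 : VV p x (R ∪ R') = ⊤ := by
    refine hSPAN d n p hp x (R ∪ R') ?_
    rw [Finset.card_union_of_disjoint hdis]
    exact hcard
  have h2 : VV p x (R ∪ R') ≤ A ⊔ A' := by
    unfold VV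
    rw [Submodule.span_le]
    rintro _ ⟨i, hi, rfl⟩
    rcases Finset.mem_union.1 (Finset.mem_coe.1 hi) with h | h
    · exact Submodule.mem_sup_left (hR i h)
    · exact Submodule.mem_sup_right (hR' i h)
  have h3 : A ⊔ A' = ⊤ := top_le_iff.1 (h1 ▸ h2)
  have h4 := Submodule.finrank_sup_add_finrank_inf_eq A A'
  have h5 : finrank ℝ (⊤ : Submodule ℝ (E d)) = d := by
    rw [finrank_top, finrank_euclideanSpace, Fintype.card_fin]
  rw [h3, h5] at h4
  have h6 : finrank ℝ W ≤ finrank ℝ (A ⊓ A' : Submodule ℝ (E d)) :=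
    Submodule.finrank_mono (le_inf hWA hWA')
  omega

end Pool.Agent.T2H81.RZ
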