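import Pool.Agent.T2H81.RZ.Stm2

/-!
# Package SUMP: a sum over pairs
-/

set_option autoImplicit false

open scoped BigOperators

namespace Pool.Agent.T2H81.RZ

open Pool.Agent.T2H81.RY

theorem T_SUMP : P_SUMP := by
  intro r u B e hu hB h1 h2
  classical
  set s : ℕ := ∑ i ∈ B, e i with hs
  rcases Nat.lt_or_ge B.card 2 with hb | hb
  · -- at most one element
    have h3 : 3 * s ≤ u := by
      rcases Nat.lt_or_ge B.card 1 with h0 | h0
      · have hB0 : B = ∅ := Finset.card_eq_zero.1 (by omega)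
        rw [hs, hB0]
        simp
      · obtain ⟨i, hi⟩ := Finset.card_eq_one.1 (show B.card = 1 by omega)
        have h4 : s = e i := by rw [hs, hi, Finset.sum_singleton]
        rw [h4]
        exact h1 i (by rw [hi]; exact Finset.mem_singleton_self i)
    omega
  · obtain ⟨c, hc⟩ : ∃ c, B.card = c + 1 := ⟨B.card - 1, by omega⟩
    have hc1 : 1 ≤ c := by omega
    have h3 : ∀ i ∈ B, 3 * (c * e i) + 3 * s ≤ c * u + 3 * e i := by
      intro i hi
      have h4 : ∑ j ∈ B.erase i, 3 * (e i + e j) ≤ (B.erase i).card • u :=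
        Finset.sum_le_card_nsmul _ _ _ fun j hj =>
          h2 i hi j (Finset.mem_of_mem_erase hj) (Finset.ne_of_mem_erase hj).symm
      rw [Finset.card_erase_of_mem hi, hc, Nat.add_sub_cancel, smul_eq_mul, ← Finset.mul_sum,
        Finset.sum_add_distrib, Finset.sum_const, Finset.card_erase_of_mem hi, hc,
        Nat.add_sub_cancel, smul_eq_mul] at h4
      have h5 : e i + ∑ j ∈ B.erase i, e j = s := Finset.add_sum_erase B e hi
      rw [mul_add] at h4
      omega
    have h4 : ∑ i ∈ B, (3 * (c * e i) + 3 * s) ≤ ∑ i ∈ B, (c * u + 3 * e i) := Finset.sum_le_sum h3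
    rw [Finset.sum_add_distrib, Finset.sum_add_distrib, Finset.sum_const, Finset.sum_const,
      ← Finset.mul_sum, ← Finset.mul_sum, ← Finset.mul_sum, hc, smul_eq_mul, smul_eq_mul, ← hs] at h4
    have h5 : c * (6 * s) ≤ c * ((c + 1) * u) := by nlinarith
    have h6 : 6 * s ≤ (c + 1) * u := Nat.le_of_mul_le_mul_left h5 (by omega)
    have h7 : (c + 1) * u ≤ 11 * u := Nat.mul_le_mul_right u (by omega)
    omega

end Pool.Agent.T2H81.RZ
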