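import Pool.Agent.T2H81.RZ.Stm3
import Pool.Agent.T2H81.RY.T_ASM

/-!
# Package ASMT: the final assembly for r at most 7
-/

set_option autoImplicit false

open Module
open scoped BigOperators

namespace Pool.Agent.T2H81.RZ

open Pool.Agent.T2H81.RY Pool.Agent.T2H81.RY.PkgASM

namespace PkgASMT

/-- the dimension of a sum of subspaces containing W -/
theorem supX {d r : ℕ} (W : Submodule ℝ (E d)) (Af : Fin r → Submodule ℝ (E d)) (e : Fin r → ℕ)
    (u : ℕ) (B : Finset (Fin r)) :
    (∀ i ∈ B, W ≤ Af i) → (∀ i ∈ B, finrank ℝ (Af i) + 3 * e i ≤ finrank ℝ W + u) →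
    ∃ X : Submodule ℝ (E d), W ≤ X ∧ (∀ i ∈ B, Af i ≤ X) ∧
      finrank ℝ X + 3 * ∑ i ∈ B, e i ≤ finrank ℝ W + B.card * u := by
  classical
  induction B using Finset.induction_on with
  | empty => exact fun _ _ => ⟨W, le_rfl, by simp, by simp⟩
  | insert a B ha ih =>
    intro h1 h2
    obtain ⟨X, hX1, hX2, hX3⟩ := ih (fun i hi => h1 i (Finset.mem_insert_of_mem hi))
      (fun i hi => h2 i (Finset.mem_insert_of_mem hi))
    refine ⟨X ⊔ Af a, le_sup_of_le_left hX1, ?_, ?_⟩
    · intro i hi
      rcases Finset.mem_insert.1 hi with h | h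
      · rw [h]; exact le_sup_right
      · exact le_sup_of_le_left (hX2 i h)
    · have h3 := Submodule.finrank_sup_add_finrank_inf_eq X (Af a)
      have h4 : finrank ℝ W ≤ finrank ℝ (X ⊓ Af a : Submodule ℝ (E d)) :=
        Submodule.finrank_mono (le_inf hX1 (h1 a (Finset.mem_insert_self a B)))
      have h5 := h2 a (Finset.mem_insert_self a B)
      rw [Finset.sum_insert ha, Finset.card_insert_of_notMem ha]
      have h6 : (B.card + 1) * u = B.card * u + u := by ring
      rw [h6]
      omega

end PkgASMT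

/-- the set of Tverberg points has dimension at least k - c if r - c ≤ 7 and
5 (r - c - 5) ≤ d -/
def P_ASMT : Prop :=
  ∀ (d r k n c : ℕ), 1 ≤ r → k ≤ d → c ≤ k → r - c ≤ 7 → 5 * (r - c - 5) ≤ d →
    n = (d + 1) * (r - 1) + 1 + k →
    ∀ p : Fin n → EuclideanSpace ℝ (Fin d),
      (∀ s : Finset (Fin n), s.card ≤ d + 1 →
        AffineIndependent ℝ (fun i : s => p (i : Fin n))) →
      ∃ f : Fin n → Fin r, ∃ q : Fin (k - c + 1) → EuclideanSpace ℝ (Fin d),
        AffineIndependent ℝ q ∧
        ∀ j : Fin (k - c + 1), ∀ i : Fin r,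
          q j ∈ convexHull ℝ (p '' {m : Fin n | f m = i})

open PkgASMT in
set_option maxHeartbeats 2000000 in
theorem T_ASMT : P_TV → P_GEN → P_GEN2 → P_IMP → P_FIN → P_KEY2 → P_ROOM → P_TIE →
    P_DESC → P_AQ → P_SAMET → P_FLAT → P_ASMT := by
  classical
  intro hTV hGEN hGEN2 hIMP hFIN hKEY2 hROOM hTIE hDESC hAQ hSAMET hFLAT d r k n c hr
    hkd hck h6 hcase hn p hp
  have hp' : GP p := hp
  -- there is a state
  obtain ⟨f0, x0, hx0⟩ := hTV d n r p hr (by omega)
  obtain ⟨x1, S1, hS1, -, -⟩ := hGEN d n r p hp' (fun i => Finset.univ.filter fun m => f0 m = i)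
    (by
      intro i j hij
      rw [Finset.disjoint_left]
      intro m hm hm'
      rw [Finset.mem_filter] at hm hm'
      exact hij (hm.2.symm.trans hm'.2)) 0 (fun _ => x0)
    (by
      haveI : Subsingleton (Fin (0 + 1)) := ⟨fun a b => by omega⟩
      exact affineIndependent_of_subsingleton ℝ _)
    (by
      intro j i
      have := hx0 i
      simpa using this)
  -- an extremal state
  obtain ⟨⟨x, S⟩, hS, hmax⟩ := exists_max
    (fun a : E d × (Fin r → Finset (Fin n)) => State p a.1 a.2)
    (fun a => finrank ℝ (WW p a.1 a.2) * (n + 1) + ∑ j, (a.2 j).card) (d * (n + 1) + n)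
    ⟨(x1, S1), hS1⟩ (by
      rintro ⟨x, S⟩ hS
      dsimp only at hS
      have h1 := total hS
      have h2 : finrank ℝ (WW p x S) ≤ d := by
        have := Submodule.finrank_le (WW p x S)
        simpa using this
      have h3 : finrank ℝ (WW p x S) * (n + 1) ≤ d * (n + 1) := Nat.mul_le_mul_right _ h2
      dsimp only
      omega)
  dsimp only at hS hmax
  have hmax' : ∀ (x' : E d) (S' : Fin r → Finset (Fin n)), State p x' S' →
      finrank ℝ (WW p x' S') * (n + 1) + ∑ j, (S' j).card ≤
        finrank ℝ (WW p x S) * (n + 1) + ∑ j, (S j).card := fun x' S' h => hmax (x', S') h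
  by_cases hk : k - c ≤ finrank ℝ (WW p x S)
  · exact hFIN d n r (k - c) p hp' hr x S hS hk
  exfalso
  push Not at hk
  obtain ⟨x', hS', hWW, hcirc⟩ := hGEN2 d n r p hp' x S hS
  rw [← hWW] at hmax' hk
  set D := finrank ℝ (WW p x' S) with hD
  have hA : ¬ CaseA p x' S := by
    intro hA
    obtain ⟨x2, S2, hS2, hlt⟩ := hIMP d n r p hp' x' S hS' hA
    have h1 := hmax' x2 S2 hS2
    have h2 := total hS'
    have h3 : (D + 1) * (n + 1) ≤ finrank ℝ (WW p x2 S2) * (n + 1) :=
      Nat.mul_le_mul_right _ hlt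
    have h4 : (D + 1) * (n + 1) = D * (n + 1) + (n + 1) := by ring
    omega
  have htot := total hS'
  have hsE := sumE_add hS'
  obtain ⟨r', rfl⟩ : ∃ r', r = r' + 1 := ⟨r - 1, by omega⟩
  have hrr : (r' + 1) * (d + 1) = (d + 1) * (r' + 1 - 1) + (d + 1) := by
    rw [Nat.add_sub_cancel]; ring
  have hcount : (LL S).card + d = sumE d S + k := by omega
  have hlt : sumE d S < (LL S).card + (d - finrank ℝ (WW p x' S)) := by
    rw [← hD]; omega
  have hkey := hKEY2 d n (r' + 1) p hp' hr x' S hS' hA hlt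
  have hext : ∀ i, ∀ P : Finset (Fin n), Circ p x' P → (∀ j, j ≠ i → Disjoint P (S j)) →
      P.card ≤ (S i).card := by
    intro i P hP hPd
    have hst : State p x' (Function.update S i P) := by
      constructor
      · intro a b hab
        by_cases ha : a = i
        · subst ha
          rw [Function.update_self, Function.update_of_ne (Ne.symm hab)]
          exact hPd b (Ne.symm hab)
        · rw [Function.update_of_ne ha]
          by_cases hb : b = i
          · subst hb
            rw [Function.update_self]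
            exact (hPd a ha).symm
          · rw [Function.update_of_ne hb]
            exact hS'.disj a b hab
      · intro a
        by_cases ha : a = i
        · subst ha
          rw [Function.update_self]
          exact hP
        · rw [Function.update_of_ne ha]
          exact hS'.circ a
    have hle : WW p x' S ≤ WW p x' (Function.update S i P) := by
      refine le_iInf fun a => ?_
      by_cases ha : a = i
      · subst ha
        rw [Function.update_self]
        exact hcirc P hP
      · rw [Function.update_of_ne ha]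
        exact iInf_le _ a
    have hfr := Submodule.finrank_mono hle
    have h1 := hmax' x' _ hst
    have h2 : D * (n + 1) ≤ finrank ℝ (WW p x' (Function.update S i P)) * (n + 1) :=
      Nat.mul_le_mul_right _ hfr
    have h4 : ∑ j, (Function.update S i P j).card + (S i).card =
        ∑ j, (S j).card + P.card := by
      have e1 := Finset.add_sum_erase Finset.univ
        (fun j => (Function.update S i P j).card) (Finset.mem_univ i)
      have e2 := Finset.add_sum_erase Finset.univ
        (fun j => (S j).card) (Finset.mem_univ i)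
      have e3 : ∑ j ∈ Finset.univ.erase i, (Function.update S i P j).card =
          ∑ j ∈ Finset.univ.erase i, (S j).card := by
        refine Finset.sum_congr rfl fun j hj => ?_
        rw [Function.update_of_ne (Finset.ne_of_mem_erase hj)]
      simp only [Function.update_self] at e1
      omega
    omega
  have hall : ∀ i, 3 * (d + 1 - (S i).card) ≤ d - D := by
    intro i
    by_cases hi : (S i).card ≤ d
    · have hroom := hROOM d n (r' + 1) p hp' x' S hS' hkey i hi
      have h3 := hTIE d n (r' + 1) p hp' hr x' S hS' hA hlt i hi (by omega) (hext i) hcirc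
      rw [← hD] at h3
      omega
    · have : d + 1 - (S i).card = 0 := by omega
      rw [this]; omega
  have hDd : D < d := by omega
  set u := d - D with hu
  set A : Finset (Fin (r' + 1)) := Finset.univ.filter fun i => (S i).card ≤ d with hAdef
  have hzero : ∀ i, i ∉ A → d + 1 - (S i).card = 0 := by
    intro i hi
    rw [hAdef, Finset.mem_filter] at hi
    have : ¬ (S i).card ≤ d := fun h => hi ⟨Finset.mem_univ _, h⟩
    omega
  have hAc : A.card ≤ r' + 1 := by
    have := Finset.card_le_univ A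
    simpa using this
  obtain ⟨I, hIA, hIc⟩ : ∃ I ⊆ A, I.card = min c A.card :=
    Finset.exists_subset_card_eq (min_le_right _ _)
  have hI1 : I.card ≤ c := by rw [hIc]; exact min_le_left _ _
  have hdesc := hDESC d n (r' + 1) p hp' hr x' S hS' hA I (by
    intro i hi
    exact (Finset.mem_filter.1 (hIA hi)).2) (by
    rw [← hD]
    omega)
  rw [← hD, ← hu] at hdesc
  have h7 : ∑ j ∈ Finset.univ \ I, (d + 1 - (S j).card) =
      ∑ j ∈ A \ I, (d + 1 - (S j).card) := by
    symm
    refine Finset.sum_subset (Finset.sdiff_subset_sdiff (Finset.subset_univ _)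
      (Finset.Subset.refl _)) ?_
    intro j hj hj'
    apply hzero
    intro hjA
    apply hj'
    rw [Finset.mem_sdiff] at hj ⊢
    exact ⟨hjA, hj.2⟩
  rw [h7] at hdesc
  have hB : (A \ I).card ≤ r' + 1 - c := by
    rw [Finset.card_sdiff_of_subset hIA, hIc]
    omega
  have hB7 : (A \ I).card ≤ 7 := hB.trans h6
  have hdisS : ∀ i j, i ≠ j → Disjoint (S i) (S j) := hS'.disj
  -- an upper bound for each deficiency
  have hone : ∀ i, 3 ≤ u → 4 * (d + 1 - (S i).card) ≤ u + 1 := by
    intro i hu3
    by_cases hi2 : 2 ≤ d + 1 - (S i).card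
    · have hi : (S i).card ≤ d := by omega
      have hi3 := hall i
      have h3 := hSAMET d n (r' + 1) p hp' hr x' S hS' hA hlt i hi (by omega) (hext i) hcirc
      rw [← hD] at h3
      omega
    · omega
  have hpos : ∀ i ∈ A \ I, 1 ≤ d + 1 - (S i).card := by
    intro i hi
    have := (Finset.mem_sdiff.1 hi).1
    rw [hAdef, Finset.mem_filter] at this
    omega
  have hu1 : 1 ≤ u := by omega
  rcases Nat.lt_or_ge u 3 with hu3 | hu3
  · -- all deficiencies are 0
    have h10 : ∑ j ∈ A \ I, (d + 1 - (S j).card) = 0 := by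
      refine Finset.sum_eq_zero fun i _ => ?_
      have := hall i
      omega
    omega
  -- a bound v for the deficiencies
  obtain ⟨v, hv⟩ : ∃ v, v = (u + 1) / 4 := ⟨_, rfl⟩
  have hv1 : ∀ i, d + 1 - (S i).card ≤ v := by
    intro i
    have := hone i hu3
    omega
  have h12 : ∑ j ∈ A \ I, (d + 1 - (S j).card) ≤ (A \ I).card * v := by
    calc ∑ j ∈ A \ I, (d + 1 - (S j).card) ≤ ∑ _j ∈ A \ I, v :=
          Finset.sum_le_sum fun i _ => hv1 i
      _ = (A \ I).card * v := by simp
  have h13 : (A \ I).card * v ≤ 7 * v := Nat.mul_le_mul_right _ hB7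
  have hcases : (u = 3 ∧ v = 1) ∨ (u = 7 ∧ v = 2) := by omega
  have hc6 : 6 ≤ (A \ I).card := by
    rcases hcases with ⟨h1, h2⟩ | ⟨h1, h2⟩
    · rw [h2] at h12; omega
    · rw [h2] at h12; omega
  obtain ⟨B, hBA, hBc⟩ := Finset.exists_subset_card_eq hc6
  have hBsum : 6 * v ≤ ∑ j ∈ B, (d + 1 - (S j).card) := by
    rcases hcases with ⟨h1, h2⟩ | ⟨h1, h2⟩
    · rw [h2]
      calc 6 * 1 = ∑ _i ∈ B, 1 := by rw [Finset.sum_const, hBc, smul_eq_mul]
        _ ≤ ∑ j ∈ B, (d + 1 - (S j).card) := Finset.sum_le_sum fun i hi => hpos i (hBA hi)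
    · have h14 := Finset.sum_sdiff hBA (f := fun j => d + 1 - (S j).card)
      have h15 : ∑ j ∈ (A \ I) \ B, (d + 1 - (S j).card) ≤ ((A \ I) \ B).card * v := by
        calc ∑ j ∈ (A \ I) \ B, (d + 1 - (S j).card) ≤ ∑ _j ∈ (A \ I) \ B, v :=
              Finset.sum_le_sum fun i _ => hv1 i
          _ = ((A \ I) \ B).card * v := by simp
      have h16 : ((A \ I) \ B).card ≤ 1 := by
        rw [Finset.card_sdiff_of_subset hBA]; omega
      have h17 : ((A \ I) \ B).card * v ≤ 1 * v := Nat.mul_le_mul_right _ h16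
      rw [h2] at h15 h17 ⊢
      omega
  have hAR : ∀ i, ∃ (A' : Submodule ℝ (E d)) (R : Finset (Fin n)), i ∈ B →
      (WW p x' S ≤ A' ∧ finrank ℝ A' + 3 * (d + 1 - (S i).card) ≤ d ∧ R ⊆ S i ∧
      (∀ z ∈ R, p z - x' ∈ A') ∧ D ≤ R.card + 1) := by
    intro i
    by_cases hi : i ∈ B
    swap
    · exact ⟨⊤, ∅, fun h => absurd h hi⟩
    have hi2 := hpos i (hBA hi)
    have hi1 : (S i).card ≤ d := by omega
    have hi3 := hall i
    obtain ⟨A', R, h1, h2, h3, h4, h5⟩ := hAQ d n (r' + 1) p hp' hr x' S hS' hA hlt i hi1 1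
      (by omega) (hext i) hcirc
    refine ⟨A', R, fun _ => ⟨h1, ?_, h3, h4, ?_⟩⟩
    · omega
    · rw [← hD] at h5
      exact h5
  choose Af R hAR using hAR
  obtain ⟨X, hX1, hX2, hX3⟩ := supX (WW p x' S) Af (fun i => d + 1 - (S i).card) u B
    (fun i hi => (hAR i hi).1) (fun i hi => by
      have := (hAR i hi).2.1
      rw [← hD]
      omega)
  rw [← hD, hBc] at hX3
  have hflat := hFLAT d n p hp' x' X (B.biUnion R) (by
    rcases hcases with ⟨h1, h2⟩ | ⟨h1, h2⟩
    · omega
    · omega) (by
    intro z hz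
    obtain ⟨i, hi, hzi⟩ := Finset.mem_biUnion.1 hz
    exact hX2 i hi ((hAR i hi).2.2.2.1 z hzi))
  have hcardU : (B.biUnion R).card = ∑ i ∈ B, (R i).card := by
    refine Finset.card_biUnion fun i hi j hj hij => ?_
    exact (hdisS i j hij).mono (hAR i hi).2.2.1 (hAR j hj).2.2.1
  have hRc : ∀ i ∈ B, D - 1 ≤ (R i).card := by
    intro i hi
    have := (hAR i hi).2.2.2.2
    omega
  have h14 : 6 * (D - 1) ≤ ∑ i ∈ B, (R i).card := by
    calc 6 * (D - 1) = ∑ _i ∈ B, (D - 1) := by rw [Finset.sum_const, hBc, smul_eq_mul]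
      _ ≤ ∑ i ∈ B, (R i).card := Finset.sum_le_sum hRc
  rcases hcases with ⟨h1, h2⟩ | ⟨h1, h2⟩
  · omega
  · rw [h2] at h12
    omega

end Pool.Agent.T2H81.RZ
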