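import Pool.Agent.T2H81.RZ.Stm3

/-!
# Package FLAT
-/

set_option autoImplicit false

open Module
open scoped BigOperators

namespace Pool.Agent.T2H81.RZ

open Pool.Agent.T2H81.RY

theorem T_FLAT : P_FLAT := by
  classical
  intro d n p hp x W Y hW hY
  by_contra hlt
  rw [not_le] at hlt
  have h2 : finrank ℝ W + 2 ≤ Y.card := hlt
  obtain ⟨Y', hY', hc⟩ := Finset.exists_subset_card_eq h2
  have hai := hp Y' (by omega)
  have hf : finrank ℝ (vectorSpan ℝ (Set.range fun i : Y' => p (i : Fin n))) = finrank ℝ W + 1 := by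
    apply hai.finrank_vectorSpan
    rw [Fintype.card_coe, hc]
  have hle : vectorSpan ℝ (Set.range fun i : Y' => p (i : Fin n)) ≤ W := by
    rw [vectorSpan_def, Submodule.span_le]
    rintro _ ⟨_, ⟨i, rfl⟩, _, ⟨j, rfl⟩, rfl⟩
    have h1 : p (i : Fin n) - x ∈ W := hY _ (hY' i.2)
    have h2 : p (j : Fin n) - x ∈ W := hY _ (hY' j.2)
    have h3 := Submodule.sub_mem _ h1 h2
    rw [sub_sub_sub_cancel_right] at h3
    exact h3
  have h4 := Submodule.finrank_mono hle
  omega

end Pool.Agent.T2H81.RZ
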