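import Pool.Agent.T2H81.RZ.Stm3

/-!
# Package RK3
-/

set_option autoImplicit false

open Module
open scoped BigOperators

namespace Pool.Agent.T2H81.RZ

open Pool.Agent.T2H81.RY

namespace PkgRK3

theorem step {n : ℕ} {K : Submodule ℝ (Fin n → ℝ)} {U Q Z : Finset (Fin n)} (hQU : Q ⊆ U)
    (hQ : ∀ γ ∈ K, (∀ i ∈ Q, γ i = 0) → ∀ i ∈ U, γ i = 0)
    (hvan : ∀ γ ∈ K, ∀ z ∈ Z, γ z = 0 → ∀ w ∈ Z, γ w = 0) (hZ : Z.Nonempty) :
    ∃ Q' : Finset (Fin n), Q' ⊆ U ∪ Z ∧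
      (∀ γ ∈ K, (∀ i ∈ Q', γ i = 0) → ∀ i ∈ U ∪ Z, γ i = 0) ∧
      Q'.card + Z.card + U.card ≤ (U ∪ Z).card + Q.card + max 1 (U ∩ Z).card := by
  classical
  have hcard := Finset.card_union_add_card_inter U Z
  by_cases hne : (U ∩ Z).Nonempty
  · obtain ⟨z, hz⟩ := hne
    rw [Finset.mem_inter] at hz
    refine ⟨Q, hQU.trans Finset.subset_union_left, ?_, ?_⟩
    · intro γ hγ h i hi
      have h6 := hQ γ hγ h
      rcases Finset.mem_union.1 hi with h' | h'
      · exact h6 i h'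
      · exact hvan γ hγ z hz.2 (h6 z hz.1) i h'
    · have h7 := le_max_right 1 (U ∩ Z).card
      omega
  · rw [Finset.not_nonempty_iff_eq_empty] at hne
    rw [hne, Finset.card_empty] at hcard
    obtain ⟨z, hz⟩ := hZ
    refine ⟨insert z Q, ?_, ?_, ?_⟩
    · intro i hi
      rcases Finset.mem_insert.1 hi with h | h
      · rw [h]; exact Finset.mem_union_right _ hz
      · exact Finset.mem_union_left _ (hQU h)
    · intro γ hγ h i hi
      rcases Finset.mem_union.1 hi with h' | h'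
      · exact hQ γ hγ (fun j hj => h j (Finset.mem_insert_of_mem hj)) i h'
      · exact hvan γ hγ z hz (h z (Finset.mem_insert_self z Q)) i h'
    · have h1 := Finset.card_insert_le z Q
      have h7 := le_max_left 1 (U ∩ Z).card
      omega

theorem van {n : ℕ} {S Z : Finset (Fin n)} {β : Fin n → ℝ} (hβ : ∀ i ∈ S, 0 < β i) (hZ : Z ⊆ S)
    {K : Submodule ℝ (Fin n → ℝ)} (hK : ∀ γ ∈ K, ∃ c : ℝ, ∀ z ∈ Z, γ z = c * β z) :
    ∀ γ ∈ K, ∀ z ∈ Z, γ z = 0 → ∀ w ∈ Z, γ w = 0 := by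
  intro γ hγ z hz hγz w hw
  obtain ⟨c, hc⟩ := hK γ hγ
  have h1 := hc z hz
  rw [hγz] at h1
  have hb := hβ z (hZ hz)
  have hc0 : c = 0 := by
    rcases mul_eq_zero.1 h1.symm with h | h
    · exact h
    · exact absurd h hb.ne'
  rw [hc w hw, hc0, zero_mul]

end PkgRK3

open PkgRK3 in
theorem T_RK3 : P_RK3 := by
  classical
  intro n S β hβ e Z0 Z1 Z2 hS0 hS1 hS2 hc0 hc1 hc2 h01 h02 h12 K hKS hK0 hK1 hK2
  have v0 := van hβ hS0 hK0
  have v1 := van hβ hS1 hK1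
  have v2 := van hβ hS2 hK2
  obtain ⟨z, hz⟩ : Z0.Nonempty := Finset.card_pos.1 (by omega)
  have hn1 : Z1.Nonempty := Finset.card_pos.1 (by omega)
  have hn2 : Z2.Nonempty := Finset.card_pos.1 (by omega)
  obtain ⟨Q1, hQ1, hV1, hC1⟩ := step (K := K) (U := Z0) (Q := {z}) (Z := Z1)
    (Finset.singleton_subset_iff.2 hz)
    (fun γ hγ h => v0 γ hγ z hz (h z (Finset.mem_singleton_self z))) v1 hn1
  obtain ⟨Q, hQ, hV, hC⟩ := step hQ1 hV1 v2 hn2
  have hI : ((Z0 ∪ Z1) ∩ Z2).card ≤ 2 := by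
    rw [Finset.union_inter_distrib_right]
    exact (Finset.card_union_le _ _).trans (by omega)
  rw [Finset.card_singleton] at hC1
  have hm1 : max 1 (Z0 ∩ Z1).card ≤ 1 := max_le le_rfl h01
  have hm2 : max 1 ((Z0 ∪ Z1) ∩ Z2).card ≤ 2 := max_le (by norm_num) hI
  set U := Z0 ∪ Z1 ∪ Z2 with hU
  have hUS : U ⊆ S := Finset.union_subset (Finset.union_subset hS0 hS1) hS2
  let R : Finset (Fin n) := Q ∪ (S \ U)
  let f : K →ₗ[ℝ] (R → ℝ) :=
    { toFun := fun γ i => γ.1 i.1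
      map_add' := fun γ δ => rfl
      map_smul' := fun c γ => rfl }
  have hf : Function.Injective f := by
    rw [injective_iff_map_eq_zero]
    intro γ hγ
    have hR : ∀ i ∈ R, γ.1 i = 0 := fun i hi => congrFun hγ ⟨i, hi⟩
    have hU0 := hV γ.1 γ.2 fun i hi => hR i (Finset.mem_union_left _ hi)
    apply Subtype.ext
    funext i
    show γ.1 i = 0
    by_cases hi : i ∈ S
    · by_cases hiU : i ∈ U
      · exact hU0 i hiU
      · exact hR i (Finset.mem_union_right _ (Finset.mem_sdiff.2 ⟨hi, hiU⟩))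
    · exact hKS γ.1 γ.2 i hi
  have h1 := LinearMap.finrank_le_finrank_of_injective hf
  rw [Module.finrank_fintype_fun_eq_card, Fintype.card_coe] at h1
  have h3 : R.card ≤ Q.card + (S \ U).card := Finset.card_union_le _ _
  rw [Finset.card_sdiff_of_subset hUS] at h3
  have h4 := Finset.card_le_card hUS
  omega

end Pool.Agent.T2H81.RZ
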