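import Pool.Agent.T2H81.RZ.Stm3
import Pool.Agent.T2H81.RZ.T_TIEQ

/-!
# Package SAMET
-/

set_option autoImplicit false

open Module
open scoped BigOperators

namespace Pool.Agent.T2H81.RZ

open Pool.Agent.T2H81.RY

open PkgTIEQ in
theorem T_SAMET : P_POS → P_ROT → P_EXCH → P_CIRCU → P_INT → P_RK3 → P_KW → P_SAMET := by
  classical
  intro hPOS hROT hEXCH hCIRCU hINT hRK3 hKW d n r p hp hr x S hS hA hn i hi hL hmax hW
  obtain ⟨T, hTL, hTc, μ, hμ, hμV⟩ := hPOS d n r p hp hr x S hS hA hn i hi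
  have hLS : ∀ m ∈ LL S, ∀ j, m ∉ S j := by
    intro m hm j hj
    simp only [LL, Finset.mem_sdiff, Finset.mem_univ, true_and, Finset.mem_biUnion,
      not_exists] at hm
    exact hm j hj
  have hTS : ∀ j, Disjoint T (S j) := fun j =>
    Finset.disjoint_left.2 fun m hm hj => hLS m (hTL hm) j hj
  obtain ⟨hSc, β, hβ, hβ1, hβx⟩ := hS.circ i
  -- the properties of the modified sets
  have key : ∀ T' : Finset (Fin n), T'.card = T.card → (∀ j, Disjoint T' (S j)) →
      (∃ ν : Fin n → ℝ, (∀ m ∈ T', 0 < ν m) ∧ ∑ m ∈ T', ν m • (p m - x) ∈ VV p x (S i)) →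
      ∃ Z : Finset (Fin n), Z ⊆ S i ∧ Circ p x ((S i \ Z) ∪ T') ∧ d + 1 - (S i).card + 1 ≤ Z.card ∧
        ∀ γ : Fin n → ℝ, ∑ k ∈ S i, γ k • (p k - x) ∈ WW p x S →
          ∃ c : ℝ, ∀ z ∈ Z, γ z = c * β z := by
    intro T' hT'c hT'S ⟨ν, hν, hνV⟩
    obtain ⟨Z, hZS, hZne, hP⟩ := hEXCH d n p x (S i) T' ν (hS.circ i) (hT'S i) (by omega) hν hνV
    refine ⟨Z, hZS, hP, ?_, ?_⟩
    · have h1 := hmax _ hP (by
        intro j hj
        rw [Finset.disjoint_union_left]
        exact ⟨(hS.disj i j hj.symm).mono_left Finset.sdiff_subset, hT'S j⟩)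
      rw [Finset.card_union_of_disjoint ((hT'S i).symm.mono_left Finset.sdiff_subset),
        Finset.card_sdiff_of_subset hZS] at h1
      have h4 := Finset.card_le_card hZS
      omega
    · intro γ hγ
      exact hINT d n p hp x (S i) T' Z β hSc hβ hβ1 hβx (hT'S i) (by omega) hZS hP γ (hW _ hP hγ)
  obtain ⟨Z0, hZ0S, hP0, hZ0c, hZ0g⟩ := key T rfl hTS ⟨μ, hμ, hμV⟩
  -- the rotations
  have hrot : ∀ y : Fin n, y ∈ LL S \ T → ∃ (t : Fin n) (Z : Finset (Fin n)), t ∈ T ∧
      (insert y (T.erase t)).card = T.card ∧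
      Z ⊆ S i ∧ Circ p x ((S i \ Z) ∪ (insert y (T.erase t))) ∧ d + 1 - (S i).card + 1 ≤ Z.card ∧
        ∀ γ : Fin n → ℝ, ∑ k ∈ S i, γ k • (p k - x) ∈ WW p x S →
          ∃ c : ℝ, ∀ z ∈ Z, γ z = c * β z := by
    intro y hy
    rw [Finset.mem_sdiff] at hy
    obtain ⟨hyL, hyT⟩ := hy
    have hyS : ∀ j, y ∉ S j := hLS y hyL
    obtain ⟨t, ht, ν, hν, hνV⟩ := hROT d n p hp x (S i) T μ y (hS.circ i) hi (hTS i) hTc hμ hμV
      (hyS i) hyT
    have hT'c : (insert y (T.erase t)).card = T.card := by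
      rw [Finset.card_insert_of_notMem (fun h => hyT (Finset.mem_of_mem_erase h)),
        Finset.card_erase_of_mem ht]
      have := Finset.card_pos.2 ⟨t, ht⟩
      omega
    have hT'S : ∀ j, Disjoint (insert y (T.erase t)) (S j) := by
      intro j
      rw [Finset.disjoint_left]
      intro m hm hj
      rcases Finset.mem_insert.1 hm with h | h
      · exact hyS j (h ▸ hj)
      · exact Finset.disjoint_left.1 (hTS j) (Finset.mem_of_mem_erase h) hj
    obtain ⟨Z, h1, h2, h3, h4⟩ := key _ hT'c hT'S ⟨ν, hν, hνV⟩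
    exact ⟨t, Z, ht, hT'c, h1, h2, h3, h4⟩
  have hne : Nonempty (Fin n) := by
    have h1 := Finset.card_sdiff_of_subset hTL
    have h2 : 0 < (LL S \ T).card := by omega
    exact ⟨(Finset.card_pos.1 h2).choose⟩
  choose! tf Zf hf1 hf2 hf3 hf4 hf5 hf6 using hrot
  -- two different new points with the same `t`
  have hYc : T.card < (LL S \ T).card := by
    rw [Finset.card_sdiff_of_subset hTL]
    omega
  obtain ⟨y, hy, y', hy', hyy, htt⟩ := Finset.exists_ne_map_eq_of_card_lt_of_maps_to hYc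
    (f := tf) (fun y hy => hf1 y hy)
  have hyn := Finset.mem_sdiff.1 hy
  have hyn' := Finset.mem_sdiff.1 hy'
  -- general bound for `T` and a rotation
  have h0a : ∀ z, z ∈ LL S \ T → (Z0 ∩ Zf z).card ≤ 1 := by
    intro z hz
    have hzn := Finset.mem_sdiff.1 hz
    have h2 := inter_le hCIRCU hp (T := T) (Y := {z}) hTc (by
      intro w hw
      rcases Finset.mem_union.1 hw with h | h
      · exact Finset.mem_union_left _ h
      · rcases Finset.mem_insert.1 h with h' | h'
        · exact Finset.mem_union_right _ (Finset.mem_singleton.2 h')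
        · exact Finset.mem_union_left _ (Finset.mem_of_mem_erase h')) hZ0S hP0 (hf4 _ hz) (by
      intro heq
      have h3 : z ∈ (S i \ Zf z) ∪ (insert z (T.erase (tf z))) :=
        Finset.mem_union_right _ (Finset.mem_insert_self _ _)
      rw [← heq, Finset.mem_union] at h3
      rcases h3 with h3 | h3
      · exact hLS _ hzn.1 i (Finset.mem_sdiff.1 h3).1
      · exact hzn.2 h3)
    rwa [Finset.card_singleton] at h2
  have h12 : (Zf y ∩ Zf y').card ≤ 1 := by
    have h2 := inter_le hCIRCU hp (T := insert y (T.erase (tf y))) (Y := {y'})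
      (by rw [hf2 y hy]; exact hTc) (by
      intro w hw
      rcases Finset.mem_union.1 hw with h | h
      · exact Finset.mem_union_left _ h
      · rcases Finset.mem_insert.1 h with h' | h'
        · exact Finset.mem_union_right _ (Finset.mem_singleton.2 h')
        · rw [← htt] at h'
          exact Finset.mem_union_left _ (Finset.mem_insert_of_mem h')) (hf3 _ hy) (hf4 _ hy)
      (hf4 _ hy') (by
      intro heq
      have h3 : y ∈ (S i \ Zf y) ∪ (insert y (T.erase (tf y))) :=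
        Finset.mem_union_right _ (Finset.mem_insert_self _ _)
      rw [heq, Finset.mem_union] at h3
      rcases h3 with h3 | h3
      · exact hLS _ hyn.1 i (Finset.mem_sdiff.1 h3).1
      · rcases Finset.mem_insert.1 h3 with h' | h'
        · exact hyy h'
        · exact hyn.2 (Finset.mem_of_mem_erase h'))
    rwa [Finset.card_singleton] at h2
  -- K
  obtain ⟨K, hK1, hK2, hK3⟩ := hKW d n p x (S i) (WW p x S) (hS.circ i) (iInf_le _ i)
  have hfin := hRK3 n (S i) β hβ (d + 1 - (S i).card) Z0 (Zf y) (Zf y') hZ0S (hf3 _ hy)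
    (hf3 _ hy') hZ0c (hf5 _ hy) (hf5 _ hy') (h0a y hy) (h0a y' hy') h12 K hK1
    (fun γ hγ => hZ0g γ (hK2 γ hγ)) (fun γ hγ => hf6 _ hy γ (hK2 γ hγ))
    (fun γ hγ => hf6 _ hy' γ (hK2 γ hγ))
  omega

end Pool.Agent.T2H81.RZ
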