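import Pool.Agent.T2H81.RY.Stm

/-!
# The dimension of the set of Tverberg points: statements of the packages

Every package is a Prop P_XX with its complete paper proof in the docstring.  The proof of package
XX goes into the file Pool/Agent/T2H81/RZ/T_XX.lean (theorem T_XX).  All earlier packages
(T_DIM, T_SPAN, T_CIRCU, T_INDEP, T_GEN, T_GEN2, T_IMP, T_FIN, T_TV, T_CC, T_CA, T_KEY, T_POS,
T_ROT, T_EXCH, T_DIMC, T_ROOM, T_TIE, T_ASM in Pool/Agent/T2H81/RY) are proved and can be read as
models; new packages take the Props of the earlier ones as hypotheses.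
-/

set_option autoImplicit false

open Module
open scoped BigOperators

namespace Pool.Agent.T2H81.RZ

open Pool.Agent.T2H81.RY

/-- **Package INT.**  Let S be a positive circuit at x with the weights β, |T| + |S| = d + 2 and
let (S \ Z) ∪ T be a positive circuit at x.  If a combination with coefficients γ of the vectors
p i - x, i in S, lies in the span of the second circuit, then γ is proportional to β on Z.

Proof.  P = (S \ Z) ∪ T; let ρ be the weights of the circuit P (positive on P,
sum of ρ_i (p i - x) over P is 0).  Write the given vector as the sum over P of δ_i (p i - x).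
T is nonempty (|S| ≤ d + 1); fix t in T and replace δ by δ - (δ_t / ρ_t) ρ, so that δ_t = 0.  Then the
difference gives coefficients κ on Y = (S ∪ T) \ t (|Y| = d + 1) with
sum over Y of κ_i (p i - x) = 0, where κ = γ on Z, κ = γ - δ on S \ Z, κ = -δ on T \ t.
As x = sum of β_i p i over S: sum over Y of (κ_i - (sum κ) β_i) p i = 0 (β = 0 on T), and the
coefficients have sum 0; by affine independence of the d + 1 points of Y, κ = (sum κ) β on Y; on Z
this is γ = (sum κ) β. -/
def P_INT : Prop :=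
  ∀ (d n : ℕ) (p : Fin n → E d), GP p → ∀ (x : E d) (S T Z : Finset (Fin n)) (β : Fin n → ℝ),
    S.card ≤ d + 1 → (∀ i ∈ S, 0 < β i) → ∑ i ∈ S, β i = 1 → ∑ i ∈ S, β i • p i = x →
    Disjoint T S → T.card + S.card = d + 2 → Z ⊆ S → Circ p x ((S \ Z) ∪ T) →
      ∀ γ : Fin n → ℝ, ∑ i ∈ S, γ i • (p i - x) ∈ VV p x ((S \ Z) ∪ T) →
        ∃ c : ℝ, ∀ z ∈ Z, γ z = c * β z

/-- **Package RK.**  Dimension count: K is a space of functions on S which are proportional to β
on each of the sets Z 0, ..., Z m (at least e + 1 elements each, Z 0 meets the others in at most 1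
element, the others meet in at most 2 elements).

Proof.  By induction on k ≤ m there are sets Q_k ⊆ U_k = Z 0 ∪ ... ∪ Z k such that each γ in K which
vanishes on Q_k vanishes on U_k, and |Q_k| + e + k (e + 2) ≤ |U_k| + k (k + 1).  k = 0: Q_0 = {z} with
z in Z 0 (γ = c β on Z 0, γ z = 0, β z > 0, so c = 0); |U_0| = |Z 0| ≥ e + 1.  Step: let
I = Z_k ∩ U_(k-1); |I| ≤ 1 + 2 (k - 1) = 2 k - 1.  If I is nonempty take Q_k = Q_(k-1): γ vanishes at
an element of Z_k, hence on Z_k; |U_k| = |U_(k-1)| + |Z_k| - |I| ≥ |U_(k-1)| + e + 1 - (2 k - 1).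
If I is empty take Q_k = Q_(k-1) ∪ {z} with z in Z_k; |U_k| = |U_(k-1)| + |Z_k|.  In both cases
|U_k| - |Q_k| ≥ |U_(k-1)| - |Q_(k-1)| + (e + 2 - 2 k) (k ≥ 1).  Finally the restriction of K to
Q_m ∪ (S \ U_m) is injective, so finrank K ≤ |Q_m| + |S| - |U_m|. -/
def P_RK : Prop :=
  ∀ (n : ℕ) (S : Finset (Fin n)) (β : Fin n → ℝ), (∀ i ∈ S, 0 < β i) →
    ∀ (m e : ℕ) (Z : ℕ → Finset (Fin n)), (∀ a ≤ m, Z a ⊆ S) → (∀ a ≤ m, e + 1 ≤ (Z a).card) →
      (∀ a ≤ m, a ≠ 0 → (Z 0 ∩ Z a).card ≤ 1) →
      (∀ a ≤ m, ∀ b ≤ m, a ≠ b → (Z a ∩ Z b).card ≤ 2) →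
      ∀ K : Submodule ℝ (Fin n → ℝ), (∀ γ ∈ K, ∀ i ∉ S, γ i = 0) →
        (∀ γ ∈ K, ∀ a ≤ m, ∃ c : ℝ, ∀ z ∈ Z a, γ z = c * β z) →
          finrank ℝ K + e + m * (e + 2) ≤ S.card + m * (m + 1)

/-- **Package KW.**  (linear algebra) For a circuit S and a subspace W of VV p x S the space of the
coefficient functions on S representing vectors of W has dimension at least dim W + 1.

Proof.  K = {γ : γ = 0 off S, sum over S of γ_i (p i - x) in W}.  The linear map K → W,
γ ↦ sum γ_i (p i - x), is onto because W ≤ VV p x S (Submodule.mem_span_image_finset_iff... as in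
Pool.Agent.T2H81.RY.LibGen.mem_vv_iff), and its kernel contains the weights of the circuit (extended
by 0; nonzero because their sum is 1).  Rank-nullity. -/
def P_KW : Prop :=
  ∀ (d n : ℕ) (p : Fin n → E d) (x : E d) (S : Finset (Fin n)) (W : Submodule ℝ (E d)),
    Circ p x S → W ≤ VV p x S →
      ∃ K : Submodule ℝ (Fin n → ℝ), (∀ γ ∈ K, ∀ i ∉ S, γ i = 0) ∧
        (∀ γ ∈ K, ∑ i ∈ S, γ i • (p i - x) ∈ W) ∧ finrank ℝ W + 1 ≤ finrank ℝ K

/-- **Package TIEQ.**  (uses POS, ROT, EXCH, CIRCU, INT, RK, KW; model: T_TIE)  As TIE, with m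
rotations instead of one.

Proof.  Let e = d + 1 - |S i|.  POS gives T ⊆ LL S, |T| = e + 1, with a positive relation modulo
VV p x (S i).  There are m different points y_1, ..., y_m in LL S \ T (|LL S| ≥ e + 1 + m).  For each a
ROT (always starting from the same T) gives t_a in T and a positive relation for
T_a = (T \ t_a) ∪ {y_a}, |T_a| = e + 1; put T_0 = T.  EXCH gives Z_a ⊆ S i nonempty such that
P_a = (S i \ Z_a) ∪ T_a is a positive circuit at x (a = 0, ..., m), disjoint from the S j, j ≠ i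
(T_a ⊆ LL S).  So |P_a| = d + 2 - |Z_a| ≤ |S i|, |Z_a| ≥ e + 1.  The circuits are different (y_a is in
P_a only).  CIRCU: |P_a ∪ P_b| ≥ d + 2, and P_a ∪ P_b ⊆ (S i \ (Z_a ∩ Z_b)) ∪ (T ∪ {y_a, y_b}), so
d + 2 ≤ |S i| - |Z_a ∩ Z_b| + |T| + 2 = d + 4 - |Z_a ∩ Z_b| for a, b ≥ 1, and one less if one of
them is 0: |Z_a ∩ Z_b| ≤ 2, |Z_0 ∩ Z_a| ≤ 1.  W = WW p x S is contained in VV p x (S i) and in all
VV p x P_a.  KW gives K with finrank K ≥ finrank W + 1; by INT each γ in K is proportional to the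
weights β of the circuit S i on each Z_a.  RK: finrank W + 1 + e + m (e + 2) ≤ |S i| + m (m + 1)
and |S i| = d + 1 - e, so finrank W + (m + 2) e ≤ d + m (m + 1) - 2 m = d + m (m - 1). -/
def P_TIEQ : Prop :=
  ∀ (d n r : ℕ) (p : Fin n → E d), GP p → 1 ≤ r → ∀ (x : E d) (S : Fin r → Finset (Fin n)),
    State p x S → ¬ CaseA p x S →
    sumE d S < (LL S).card + (d - finrank ℝ (WW p x S)) → ∀ i, (S i).card ≤ d →
    ∀ m : ℕ, d + 2 + m ≤ (LL S).card + (S i).card →
    (∀ P : Finset (Fin n), Circ p x P → (∀ j, j ≠ i → Disjoint P (S j)) →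
      P.card ≤ (S i).card) →
    (∀ P : Finset (Fin n), Circ p x P → WW p x S ≤ VV p x P) →
      finrank ℝ (WW p x S) + (m + 2) * (d + 1 - (S i).card) ≤ d + m * (m - 1)

/-- a family of pairwise disjoint positive circuits modulo the spans of the parts in I, made of
unused points -/
structure Circs {d n r : ℕ} (p : Fin n → E d) (x : E d) (S : Fin r → Finset (Fin n))
    (I : Finset (Fin r)) (C : Fin r → Finset (Fin n)) : Prop where
  sub : ∀ i ∈ I, C i ⊆ LL S
  card : ∀ i ∈ I, (C i).card + (S i).card = d + 2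
  rel : ∀ i ∈ I, ∃ μ : Fin n → ℝ, (∀ m ∈ C i, 0 < μ m) ∧
    ∑ m ∈ C i, μ m • (p m - x) ∈ VV p x (S i)
  disj : ∀ i ∈ I, ∀ j ∈ I, i ≠ j → Disjoint (C i) (C j)

/-- **Package EXT.**  (uses SPAN) Every vector is a nonnegative combination of a positive circuit
modulo the span.

Proof.  |S ∪ T| = d + 2, so VV p x (S ∪ T) = ⊤ (SPAN) and b = sum over S ∪ T of a_i (p i - x); the
terms with i in S are in VV p x S.  With c = a + N μ on T (0 elsewhere), N large, c ≥ 0 and
b - sum over T of c_m (p m - x) = (terms in VV p x S) - N (sum of μ_m (p m - x)) in VV p x S. -/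
def P_EXT : Prop :=
  ∀ (d n : ℕ) (p : Fin n → E d), GP p → ∀ (x : E d) (S T : Finset (Fin n)) (μ : Fin n → ℝ),
    Disjoint T S → T.card + S.card = d + 2 → (∀ m ∈ T, 0 < μ m) →
    ∑ m ∈ T, μ m • (p m - x) ∈ VV p x S →
      ∀ b : E d, ∃ c : Fin n → ℝ, (∀ m, 0 ≤ c m) ∧ b - ∑ m ∈ T, c m • (p m - x) ∈ VV p x S

/-- **Package CASEX.**  (uses EXT) Case A only needs to be checked for the parts outside I and the
unused points outside the circuits C i, i in I.

Proof.  For i in I take c_i from EXT for the vector b and T = C i (disjoint from S i as C i ⊆ LL S).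
Define σ' m = i and c' m = c_i m if m is in C i for an i in I (unique); for the other m put
σ' m = σ m and c' m = c m if σ m is not in I, c' m = 0 if σ m is in I.  For i in I the sum over
{m in LL S : σ' m = i} of c' m (p m - x) is the sum over C i of c_i m (p m - x) (the other terms
are 0); for j not in I the set {m in LL S : σ' m = j} is {m in LL S \ ∪ C i : σ m = j} and c' = c
there.  So Case A holds. -/
def P_CASEX : Prop :=
  ∀ (d n r : ℕ) (p : Fin n → E d), GP p → ∀ (x : E d) (S : Fin r → Finset (Fin n)),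
    ∀ (I : Finset (Fin r)) (C : Fin r → Finset (Fin n)), Circs p x S I C →
      ∀ b : E d, b ∉ WW p x S → ∀ c : Fin n → ℝ, (∀ m, 0 ≤ c m) → ∀ σ : Fin n → Fin r,
        (∀ j, j ∉ I → b - ∑ m ∈ (LL S \ I.biUnion C).filter (fun m => σ m = j),
          c m • (p m - x) ∈ VV p x (S j)) → CaseA p x S

/-- **Package DW.**  (uses CASEX) If the state is not in Case A and there are circuits for the parts
in I then the intersection of the spans of the other parts is W.

Proof.  W is contained in it.  If b is in the intersection and not in W then CASEX with c = 0 gives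
Case A (σ arbitrary; r ≥ 1). -/
def P_DW : Prop :=
  ∀ (d n r : ℕ) (p : Fin n → E d), GP p → 1 ≤ r → ∀ (x : E d) (S : Fin r → Finset (Fin n)),
    ¬ CaseA p x S → ∀ (I : Finset (Fin r)) (C : Fin r → Finset (Fin n)), Circs p x S I C →
      (⨅ j : {j : Fin r // j ∉ I}, VV p x (S j.1)) = WW p x S

/-- **Package NEXT.**  (uses CA, CASEX, DW, DIM, INDEP; model: T_POS) The next circuit.

Proof.  As POS, with J = {j // j ∉ I} (it contains i), V j = VV p x (S j) and
ι = L' = LL S \ ∪ C i instead of LL S.  By DW the intersection of the V j, j in J, is W.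
|L'| = |LL S| - sum over I of (d + 2 - |S i'|) (disjoint subsets of LL S), and
sum over J of e_j = sumE - sum over I of (d + 1 - |S i'|), so the cardinality hypothesis of CA
(sum over J of e_j < |L'| + u) is sumE + |I| < |LL S| + u.  (L' is nonempty, because
sum over J of e_j ≥ u: codimension is subadditive; or: if L' is empty the conclusion of the next
step still works: 0 is not in the convex hull of the empty set, λ = 0 ... simply use
|L'| ≥ 1 from the inequality and subadditivity, as in T_POS.)  If 0 is not in the convex hull of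
the classes of p m - x, m in L', modulo VV p x (S i) then there is λ vanishing on VV p x (S i) ≥ W
with λ > 0 on L'; CA gives b with λ b = 1 (so b is not in W), and CASEX gives Case A.  So there is
T ⊆ L' as in POS. -/
def P_NEXT : Prop :=
  ∀ (d n r : ℕ) (p : Fin n → E d), GP p → 1 ≤ r → ∀ (x : E d) (S : Fin r → Finset (Fin n)),
    State p x S → ¬ CaseA p x S → ∀ (I : Finset (Fin r)) (C : Fin r → Finset (Fin n)),
      Circs p x S I C → sumE d S + I.card < (LL S).card + (d - finrank ℝ (WW p x S)) →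
        ∀ i, i ∉ I → (S i).card ≤ d → ∃ T : Finset (Fin n), T ⊆ LL S \ I.biUnion C ∧
          T.card + (S i).card = d + 2 ∧
          ∃ μ : Fin n → ℝ, (∀ m ∈ T, 0 < μ m) ∧ ∑ m ∈ T, μ m • (p m - x) ∈ VV p x (S i)

/-- **Package KEY3.**  (uses KEY, CASEX, DW, DIM, INDEP; model: K2_T_KEY2 in RY/K2.lean)

Proof.  Suppose sum over J = {j ∉ I} of e_j < 2 u.  If J is empty then by DW W is the empty
infimum ⊤, so u = 0, contradiction.  Otherwise apply KEY with J, V j = VV p x (S j) (intersection W by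
DW) and ι = a subset of L' = LL S \ ∪ C i with at most u and more than (sum over J of e_j) - u
elements (possible, since |L'| + u > sum over J of e_j as in NEXT, and 2 u > sum over J of e_j).
The result, with c extended by 0, is the hypothesis of CASEX: Case A. -/
def P_KEY3 : Prop :=
  ∀ (d n r : ℕ) (p : Fin n → E d), GP p → 1 ≤ r → ∀ (x : E d) (S : Fin r → Finset (Fin n)),
    State p x S → ¬ CaseA p x S → ∀ (I : Finset (Fin r)) (C : Fin r → Finset (Fin n)),
      Circs p x S I C → sumE d S + I.card < (LL S).card + (d - finrank ℝ (WW p x S)) →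
        2 * (d - finrank ℝ (WW p x S)) ≤ ∑ j ∈ Finset.univ \ I, (d + 1 - (S j).card)

/-- **Package DESC.**  (uses NEXT, KEY3) Induction on |I|.

Proof.  By induction on I there is a family C with Circs p x S I C (empty I: anything; insert i I:
the family for I, then NEXT gives T for i; put C i = T, keep the others).  Then KEY3. -/
def P_DESC : Prop :=
  ∀ (d n r : ℕ) (p : Fin n → E d), GP p → 1 ≤ r → ∀ (x : E d) (S : Fin r → Finset (Fin n)),
    State p x S → ¬ CaseA p x S → ∀ I : Finset (Fin r), (∀ i ∈ I, (S i).card ≤ d) →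
      sumE d S + I.card < (LL S).card + (d - finrank ℝ (WW p x S)) →
        2 * (d - finrank ℝ (WW p x S)) ≤ ∑ j ∈ Finset.univ \ I, (d + 1 - (S j).card)

/-- **Package ASMQ** (the theorem; model: T_ASM).  For r ≤ 5 the term r - 5 is 0.

The claim: dim T_r(X) ≥ m whenever m ≤ k and one of m + r (r - 5) ≤ d, m + (r - 5) ≤ k holds.

Proof.  As ASM: choose a state with D = dim W maximal, then the sum of the |S j| maximal, and x
generic (GEN2).  If D ≥ m then FIN.  Suppose D < m; u = d - D ≥ 1.  Not Case A (IMP), and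
|LL S| = sumE - d + k = sumE - u + (k - D).  KEY2: 2 u ≤ sumE; ROOM: u ≥ e_i + 1;
|LL S| ≥ u + 1; TIE: 3 e_i ≤ u for all i.
(1) If m + (r - 5) ≤ k: then k - D ≥ r - 5 + 1.  Let A = {i : e_i ≥ 1}.  If |A| ≤ 5 then
3 sumE ≤ 5 u, but 3 sumE ≥ 6 u: contradiction.  Otherwise choose I ⊆ A with |I| = |A| - 5 ≤ r - 5;
sumE + |I| < |LL S| + u; DESC: 2 u ≤ sum over the complement of I of e_j, where at most 5 of the
e_j are nonzero, so 6 u ≤ 5 u: contradiction.
(2) If m + r (r - 5) ≤ d: then u ≥ r (r - 5) + 1.  If r ≤ 5: 3 sumE ≤ r u ≤ 5 u contradicts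
6 u ≤ 3 sumE.  If r ≥ 6: TIEQ with m := r - 4 (the hypothesis d + 2 + (r - 4) ≤ |LL S| + |S i| holds:
|LL S| - e_i ≥ u + 1 - e_i and 3 (u - e_i) ≥ 2 u ≥ 2 (r (r - 5) + 1) ≥ 3 (r - 4)) gives
(r - 2) e_i ≤ u + (r - 4) (r - 5) for all i (trivial if e_i = 0); summing over i:
2 (r - 2) u ≤ (r - 2) sumE ≤ r u + r (r - 4) (r - 5), so (r - 4) u ≤ (r - 4) r (r - 5), u ≤ r (r - 5):
contradiction. -/
def P_ASMQ : Prop :=
  ∀ (d r k n m : ℕ), 1 ≤ r → k ≤ d → m ≤ k → (m + r * (r - 5) ≤ d ∨ m + (r - 5) ≤ k) →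
    n = (d + 1) * (r - 1) + 1 + k →
    ∀ p : Fin n → EuclideanSpace ℝ (Fin d),
      (∀ s : Finset (Fin n), s.card ≤ d + 1 →
        AffineIndependent ℝ (fun i : s => p (i : Fin n))) →
      ∃ f : Fin n → Fin r, ∃ q : Fin (m + 1) → EuclideanSpace ℝ (Fin d),
        AffineIndependent ℝ q ∧
        ∀ j : Fin (m + 1), ∀ i : Fin r,
          q j ∈ convexHull ℝ (p '' {m : Fin n | f m = i})

end Pool.Agent.T2H81.RZ
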