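import Pool.Agent.T2H81.RZ.Stm

/-!
# The dimension of the set of Tverberg points: pairs of parts (statements of the packages)
-/

set_option autoImplicit false

open Module
open scoped BigOperators

namespace Pool.Agent.T2H81.RZ

open Pool.Agent.T2H81.RY

/-- **Package AQ.**  (uses POS, ROT, EXCH, CIRCU, INT, RK; model: T_TIEQ) As TIEQ, but with the
subspace A cut out by the circuits of the part i and with the set R of the points of S i outside all
the Z_a.

Proof.  Take T_a, Z_a (a = 0, ..., m) and P_a as in TIEQ.  Let K be the space of the functions γ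
which are 0 off S i and proportional to β (the weights of the circuit S i) on each Z_a, and let A be
the image of K under γ ↦ sum over S i of γ_z (p z - x).  RK: finrank K + e + m (e + 2) ≤
|S i| + m (m + 1).  The kernel of K → A contains β ≠ 0, so finrank A + 1 ≤ finrank K; with
|S i| = d + 1 - e this is finrank A + (m + 2) e ≤ d + m (m - 1).  WW ≤ A: each w in WW ≤ VV p x (S i)
is the sum over S i of γ_z (p z - x) with γ = 0 off S i, and by INT (WW ≤ VV p x P_a) γ is in K.  Let
R = S i \ (Z_0 ∪ ... ∪ Z_m).  For z in R the indicator function of z is in K, so p z - x is in A.  A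
function γ in K is determined by its values on R and by the m + 1 factors c_a (γ = c_a β on Z_a;
equivalently by the values at one chosen element of each Z_a), so finrank K ≤ |R| + m + 1 and
finrank WW + 1 ≤ finrank A + 1 ≤ finrank K ≤ |R| + m + 1. -/
def P_AQ : Prop :=
  ∀ (d n r : ℕ) (p : Fin n → E d), GP p → 1 ≤ r → ∀ (x : E d) (S : Fin r → Finset (Fin n)),
    State p x S → ¬ CaseA p x S →
    sumE d S < (LL S).card + (d - finrank ℝ (WW p x S)) → ∀ i, (S i).card ≤ d →
    ∀ m : ℕ, d + 2 + m ≤ (LL S).card + (S i).card →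
    (∀ P : Finset (Fin n), Circ p x P → (∀ j, j ≠ i → Disjoint P (S j)) →
      P.card ≤ (S i).card) →
    (∀ P : Finset (Fin n), Circ p x P → WW p x S ≤ VV p x P) →
      ∃ (A : Submodule ℝ (E d)) (R : Finset (Fin n)), WW p x S ≤ A ∧
        finrank ℝ A + (m + 2) * (d + 1 - (S i).card) ≤ d + m * (m - 1) ∧ R ⊆ S i ∧
        (∀ z ∈ R, p z - x ∈ A) ∧ finrank ℝ (WW p x S) ≤ R.card + m

/-- **Package PAIR.**  (uses SPAN; pure dimension count) Two subspaces with many points.

Proof.  R ∪ R' has at least d + 1 points (R, R' are disjoint), so VV p x (R ∪ R') = ⊤ (SPAN), and it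
is contained in A ⊔ A'.  So finrank (A ⊓ A') + d = finrank A + finrank A', and W ≤ A ⊓ A'. -/
def P_PAIR : Prop :=
  ∀ (d n : ℕ) (p : Fin n → E d), GP p → ∀ (x : E d) (A A' W : Submodule ℝ (E d))
    (R R' : Finset (Fin n)), W ≤ A → W ≤ A' → (∀ z ∈ R, p z - x ∈ A) → (∀ z ∈ R', p z - x ∈ A') →
      Disjoint R R' → d + 1 ≤ R.card + R'.card →
        finrank ℝ W + d ≤ finrank ℝ A + finrank ℝ A'

/-- **Package SUMP.**  (elementary) If the sum of any two different elements of a finite family
of at most 11 natural numbers is at most u / 3 (3 (e i + e j) ≤ u), and 3 e i ≤ u for all i, then the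
sum of the family is less than 2 u (u ≥ 1).

Proof.  Let b = |B|.  If b ≤ 1 then the sum is at most u / 3.  If b ≥ 2 then sum over the ordered
pairs (i, j), i ≠ j, of 3 (e i + e j) = 6 (b - 1) sum e ≤ b (b - 1) u, so 6 sum e ≤ b u ≤ 11 u. -/
def P_SUMP : Prop :=
  ∀ (r u : ℕ) (B : Finset (Fin r)) (e : Fin r → ℕ), 1 ≤ u → B.card ≤ 11 →
    (∀ i ∈ B, 3 * e i ≤ u) → (∀ i ∈ B, ∀ j ∈ B, i ≠ j → 3 * (e i + e j) ≤ u) →
      ∑ i ∈ B, e i < 2 * u

end Pool.Agent.T2H81.RZ
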