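import Pool.Agent.T2H81.RZ.Stm2

/-!
# The dimension of the set of Tverberg points: six parts (statements of the packages)
-/

set_option autoImplicit false

open Module
open scoped BigOperators

namespace Pool.Agent.T2H81.RZ

open Pool.Agent.T2H81.RY

/-- **Package RK3.**  (model: T_RK) Three sets with at least e + 1 elements, pairwise meeting in at
most one element.

Proof.  Put U_1 = Z 0 ∪ Z 1 and see the proof of RK: there are Q_k ⊆ U_k such that each γ in K
vanishing on Q_k vanishes on U_k; |U_0| - |Q_0| ≥ e, each next set Z_k adds at least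
e + 1 - max(1, |Z_k ∩ U_(k-1)|), i.e. e for k = 1 and e - 1 for k = 2 (|Z_2 ∩ U_1| ≤ 2).  So
finrank K ≤ |S| - (3 e - 1). -/
def P_RK3 : Prop :=
  ∀ (n : ℕ) (S : Finset (Fin n)) (β : Fin n → ℝ), (∀ i ∈ S, 0 < β i) →
    ∀ (e : ℕ) (Z0 Z1 Z2 : Finset (Fin n)), Z0 ⊆ S → Z1 ⊆ S → Z2 ⊆ S → e + 1 ≤ Z0.card →
      e + 1 ≤ Z1.card → e + 1 ≤ Z2.card → (Z0 ∩ Z1).card ≤ 1 → (Z0 ∩ Z2).card ≤ 1 →
      (Z1 ∩ Z2).card ≤ 1 →
      ∀ K : Submodule ℝ (Fin n → ℝ), (∀ γ ∈ K, ∀ i ∉ S, γ i = 0) →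
        (∀ γ ∈ K, ∃ c : ℝ, ∀ z ∈ Z0, γ z = c * β z) →
        (∀ γ ∈ K, ∃ c : ℝ, ∀ z ∈ Z1, γ z = c * β z) →
        (∀ γ ∈ K, ∃ c : ℝ, ∀ z ∈ Z2, γ z = c * β z) →
          finrank ℝ K + 3 * e ≤ S.card + 1

/-- **Package SAMET.**  (uses POS, ROT, EXCH, CIRCU, INT, RK3, KW; model: T_TIEQ, copy it) Two
rotations with the same t.

Proof.  As TIEQ.  |LL S \ T| ≥ e + 2 > |T| = e + 1 (|LL S| ≥ 2 e + 3), so by the pigeonhole principle there
are y ≠ y' in LL S \ T for which ROT gives the same t in T.  (In T_TIEQ the statement hrot has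
to be made a bit more precise: T' = insert y (T.erase t) with t in T; then choose t as a function
of y; Finset.exists_ne_map_eq_of_card_lt_of_maps_to.)  So T_0 = T, T_1 = (T \ t) ∪ {y},
T_2 = (T \ t) ∪ {y'} have pairwise unions with e + 2 elements, and by CIRCU (inter_le of T_TIEQ) the
sets Z_0, Z_1, Z_2 meet pairwise in at most one element: for Z_1, Z_2 use T_1 ∪ T_2 ⊆ T_1 ∪ {y'} (T_1
has the same number of elements as T).  KW gives K; RK3: finrank W + 1 + 3 e ≤ |S i| + 1 =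
d + 2 - e, so finrank W + 4 e ≤ d + 1. -/
def P_SAMET : Prop :=
  ∀ (d n r : ℕ) (p : Fin n → E d), GP p → 1 ≤ r → ∀ (x : E d) (S : Fin r → Finset (Fin n)),
    State p x S → ¬ CaseA p x S →
    sumE d S < (LL S).card + (d - finrank ℝ (WW p x S)) → ∀ i, (S i).card ≤ d →
    2 * (d + 1 - (S i).card) + 3 ≤ (LL S).card →
    (∀ P : Finset (Fin n), Circ p x P → (∀ j, j ≠ i → Disjoint P (S j)) →
      P.card ≤ (S i).card) →
    (∀ P : Finset (Fin n), Circ p x P → WW p x S ≤ VV p x P) →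
      finrank ℝ (WW p x S) + 4 * (d + 1 - (S i).card) ≤ d + 1

/-- **Package FLAT.**  A flat of dimension D < d contains at most D + 1 of the points.

Proof.  If |Y| ≥ D + 2 take Y' ⊆ Y with D + 2 ≤ d + 1 elements; by GP its vector span has dimension
D + 1; but it is contained in W because p z - p z' = (p z - x) - (p z' - x). -/
def P_FLAT : Prop :=
  ∀ (d n : ℕ) (p : Fin n → E d), GP p → ∀ (x : E d) (W : Submodule ℝ (E d)) (Y : Finset (Fin n)),
    finrank ℝ W < d → (∀ z ∈ Y, p z - x ∈ W) → Y.card ≤ finrank ℝ W + 1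

end Pool.Agent.T2H81.RZ
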