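import Pool.Agent.T2H81.RZ.Stm
import Pool.Agent.T2H81.RY.T_ASM

/-!
# Package ASMQ
-/

set_option autoImplicit false

open Module
open scoped BigOperators

namespace Pool.Agent.T2H81.RZ

open Pool.Agent.T2H81.RY Pool.Agent.T2H81.RY.PkgASM

theorem T_ASMQ : P_TV → P_GEN → P_GEN2 → P_IMP → P_FIN → P_KEY2 → P_ROOM → P_TIE → P_TIEQ →
    P_DESC → P_ASMQ := by
  classical
  intro hTV hGEN hGEN2 hIMP hFIN hKEY2 hROOM hTIE hTIEQ hDESC d r k n m hr hkd hmk hcase hn p hp
  have hp' : GP p := hp
  -- there is a state
  obtain ⟨f0, x0, hx0⟩ := hTV d n r p hr (by omega)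
  obtain ⟨x1, S1, hS1, -, -⟩ := hGEN d n r p hp' (fun i => Finset.univ.filter fun m => f0 m = i)
    (by
      intro i j hij
      rw [Finset.disjoint_left]
      intro m hm hm'
      rw [Finset.mem_filter] at hm hm'
      exact hij (hm.2.symm.trans hm'.2)) 0 (fun _ => x0)
    (by
      haveI : Subsingleton (Fin (0 + 1)) := ⟨fun a b => by omega⟩
      exact affineIndependent_of_subsingleton ℝ _)
    (by
      intro j i
      have := hx0 i
      simpa using this)
  -- an extremal state
  obtain ⟨⟨x, S⟩, hS, hmax⟩ := exists_max
    (fun a : E d × (Fin r → Finset (Fin n)) => State p a.1 a.2)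
    (fun a => finrank ℝ (WW p a.1 a.2) * (n + 1) + ∑ j, (a.2 j).card) (d * (n + 1) + n)
    ⟨(x1, S1), hS1⟩ (by
      rintro ⟨x, S⟩ hS
      dsimp only at hS
      have h1 := total hS
      have h2 : finrank ℝ (WW p x S) ≤ d := by
        have := Submodule.finrank_le (WW p x S)
        simpa using this
      have h3 : finrank ℝ (WW p x S) * (n + 1) ≤ d * (n + 1) := Nat.mul_le_mul_right _ h2
      dsimp only
      omega)
  dsimp only at hS hmax
  have hmax' : ∀ (x' : E d) (S' : Fin r → Finset (Fin n)), State p x' S' →
      finrank ℝ (WW p x' S') * (n + 1) + ∑ j, (S' j).card ≤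
        finrank ℝ (WW p x S) * (n + 1) + ∑ j, (S j).card := fun x' S' h => hmax (x', S') h
  by_cases hk : m ≤ finrank ℝ (WW p x S)
  · exact hFIN d n r m p hp' hr x S hS hk
  exfalso
  push Not at hk
  obtain ⟨x', hS', hWW, hcirc⟩ := hGEN2 d n r p hp' x S hS
  rw [← hWW] at hmax' hk
  set D := finrank ℝ (WW p x' S) with hD
  have hA : ¬ CaseA p x' S := by
    intro hA
    obtain ⟨x2, S2, hS2, hlt⟩ := hIMP d n r p hp' x' S hS' hA
    have h1 := hmax' x2 S2 hS2
    have h2 := total hS'
    have h3 : (D + 1) * (n + 1) ≤ finrank ℝ (WW p x2 S2) * (n + 1) :=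
      Nat.mul_le_mul_right _ hlt
    have h4 : (D + 1) * (n + 1) = D * (n + 1) + (n + 1) := by ring
    omega
  have htot := total hS'
  have hsE := sumE_add hS'
  obtain ⟨r', rfl⟩ : ∃ r', r = r' + 1 := ⟨r - 1, by omega⟩
  have hrr : (r' + 1) * (d + 1) = (d + 1) * (r' + 1 - 1) + (d + 1) := by
    rw [Nat.add_sub_cancel]; ring
  have hcount : (LL S).card + d = sumE d S + k := by omega
  have hlt : sumE d S < (LL S).card + (d - finrank ℝ (WW p x' S)) := by
    rw [← hD]; omega
  have hkey := hKEY2 d n (r' + 1) p hp' hr x' S hS' hA hlt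
  have hext : ∀ i, ∀ P : Finset (Fin n), Circ p x' P → (∀ j, j ≠ i → Disjoint P (S j)) →
      P.card ≤ (S i).card := by
    intro i P hP hPd
    have hst : State p x' (Function.update S i P) := by
      constructor
      · intro a b hab
        by_cases ha : a = i
        · subst ha
          rw [Function.update_self, Function.update_of_ne (Ne.symm hab)]
          exact hPd b (Ne.symm hab)
        · rw [Function.update_of_ne ha]
          by_cases hb : b = i
          · subst hb
            rw [Function.update_self]
            exact (hPd a ha).symm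
          · rw [Function.update_of_ne hb]
            exact hS'.disj a b hab
      · intro a
        by_cases ha : a = i
        · subst ha
          rw [Function.update_self]
          exact hP
        · rw [Function.update_of_ne ha]
          exact hS'.circ a
    have hle : WW p x' S ≤ WW p x' (Function.update S i P) := by
      refine le_iInf fun a => ?_
      by_cases ha : a = i
      · subst ha
        rw [Function.update_self]
        exact hcirc P hP
      · rw [Function.update_of_ne ha]
        exact iInf_le _ a
    have hfr := Submodule.finrank_mono hle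
    have h1 := hmax' x' _ hst
    have h2 : D * (n + 1) ≤ finrank ℝ (WW p x' (Function.update S i P)) * (n + 1) :=
      Nat.mul_le_mul_right _ hfr
    have h4 : ∑ j, (Function.update S i P j).card + (S i).card =
        ∑ j, (S j).card + P.card := by
      have e1 := Finset.add_sum_erase Finset.univ
        (fun j => (Function.update S i P j).card) (Finset.mem_univ i)
      have e2 := Finset.add_sum_erase Finset.univ
        (fun j => (S j).card) (Finset.mem_univ i)
      have e3 : ∑ j ∈ Finset.univ.erase i, (Function.update S i P j).card =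
          ∑ j ∈ Finset.univ.erase i, (S j).card := by
        refine Finset.sum_congr rfl fun j hj => ?_
        rw [Function.update_of_ne (Finset.ne_of_mem_erase hj)]
      simp only [Function.update_self] at e1
      omega
    omega
  have hall : ∀ i, 3 * (d + 1 - (S i).card) ≤ d - D := by
    intro i
    by_cases hi : (S i).card ≤ d
    · have hroom := hROOM d n (r' + 1) p hp' x' S hS' hkey i hi
      have h3 := hTIE d n (r' + 1) p hp' hr x' S hS' hA hlt i hi (by omega) (hext i) hcirc
      rw [← hD] at h3
      omega
    · have : d + 1 - (S i).card = 0 := by omega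
      rw [this]; omega
  have hDd : D < d := by omega
  rcases hcase with hcase | hcase
  · -- case (2)
    by_cases hr5 : r' + 1 ≤ 5
    · have hsum : 3 * sumE d S ≤ (r' + 1) * (d - D) := by
        rw [sumE, Finset.mul_sum]
        calc ∑ i, 3 * (d + 1 - (S i).card) ≤ ∑ _i : Fin (r' + 1), (d - D) :=
              Finset.sum_le_sum fun i _ => hall i
          _ = (r' + 1) * (d - D) := by simp
      have h5 : (r' + 1) * (d - D) ≤ 5 * (d - D) := Nat.mul_le_mul_right _ hr5
      omega
    · push Not at hr5
      obtain ⟨t, rfl⟩ : ∃ t, r' = t + 5 := ⟨r' - 5, by omega⟩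
      have e1 : t + 5 + 1 - 5 = t + 1 := by omega
      rw [e1] at hcase
      set u := d - D with hu
      have hu1 : (t + 6) * (t + 1) + 1 ≤ u := by
        have : (t + 5 + 1) * (t + 1) = (t + 6) * (t + 1) := by ring
        rw [this] at hcase
        omega
      have hall2 : ∀ i, (t + 4) * (d + 1 - (S i).card) ≤ u + (t + 2) * (t + 1) := by
        intro i
        by_cases hi : (S i).card ≤ d
        · have hi3 := hall i
          have hroomy : d + 2 + (t + 2) ≤ (LL S).card + (S i).card := by
            have h7 : 3 * (t + 2) ≤ 2 * u := by nlinarith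
            omega
          have h3 := hTIEQ d n (t + 5 + 1) p hp' hr x' S hS' hA hlt i hi (t + 2) hroomy
            (hext i) hcirc
          rw [← hD] at h3
          have e2 : t + 2 - 1 = t + 1 := by omega
          rw [e2] at h3
          have e3 : t + 2 + 2 = t + 4 := by omega
          rw [e3] at h3
          omega
        · have : d + 1 - (S i).card = 0 := by omega
          rw [this]; omega
      have hsum : (t + 4) * sumE d S ≤ (t + 6) * (u + (t + 2) * (t + 1)) := by
        rw [sumE, Finset.mul_sum]
        calc ∑ i, (t + 4) * (d + 1 - (S i).card)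
            ≤ ∑ _i : Fin (t + 5 + 1), (u + (t + 2) * (t + 1)) :=
              Finset.sum_le_sum fun i _ => hall2 i
          _ = (t + 6) * (u + (t + 2) * (t + 1)) := by simp
      have hkey' : 2 * u ≤ sumE d S := hkey
      have h8 : (t + 4) * (2 * u) ≤ (t + 6) * (u + (t + 2) * (t + 1)) :=
        (Nat.mul_le_mul_left _ hkey').trans hsum
      have h9 : (t + 2) * u ≤ (t + 2) * ((t + 6) * (t + 1)) := by nlinarith
      have h10 : u ≤ (t + 6) * (t + 1) := Nat.le_of_mul_le_mul_left h9 (by omega)
      omega
  · -- case (1)
    set u := d - D with hu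
    set A : Finset (Fin (r' + 1)) := Finset.univ.filter fun i => (S i).card ≤ d with hAdef
    have hzero : ∀ i, i ∉ A → d + 1 - (S i).card = 0 := by
      intro i hi
      rw [hAdef, Finset.mem_filter] at hi
      have : ¬ (S i).card ≤ d := fun h => hi ⟨Finset.mem_univ _, h⟩
      omega
    have hAc : A.card ≤ r' + 1 := by
      have := Finset.card_le_univ A
      simpa using this
    obtain ⟨I, hIA, hIc⟩ : ∃ I ⊆ A, I.card = A.card - 5 :=
      Finset.exists_subset_card_eq (by omega)
    have hI1 : I.card ≤ r' + 1 - 5 := by omega
    have hdesc := hDESC d n (r' + 1) p hp' hr x' S hS' hA I (by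
      intro i hi
      exact (Finset.mem_filter.1 (hIA hi)).2) (by
      rw [← hD]
      omega)
    rw [← hD] at hdesc
    have h6 : 3 * ∑ j ∈ Finset.univ \ I, (d + 1 - (S j).card) ≤ 5 * u := by
      have h7 : ∑ j ∈ Finset.univ \ I, (d + 1 - (S j).card) =
          ∑ j ∈ A \ I, (d + 1 - (S j).card) := by
        symm
        refine Finset.sum_subset (Finset.sdiff_subset_sdiff (Finset.subset_univ _)
          (Finset.Subset.refl _)) ?_
        intro j hj hj'
        apply hzero
        intro hjA
        apply hj'
        rw [Finset.mem_sdiff] at hj ⊢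
        exact ⟨hjA, hj.2⟩
      rw [h7, Finset.mul_sum]
      calc ∑ j ∈ A \ I, 3 * (d + 1 - (S j).card) ≤ ∑ _j ∈ A \ I, u :=
            Finset.sum_le_sum fun i _ => hall i
        _ = (A \ I).card * u := by simp
        _ ≤ 5 * u := by
          apply Nat.mul_le_mul_right
          rw [Finset.card_sdiff_of_subset hIA]
          omega
    omega

end Pool.Agent.T2H81.RZ
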